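import Mathlib
import Pool.Agent.Y220.CO.Tail

set_option autoImplicit false

/-!
# Circuits of constant depth over an arbitrary alphabet: block sensitivity
-/

namespace Pool.Agent.X222.AP

open Finset Function

/-- A circuit whose inputs are words of length `n` over the alphabet `α`. `val v x` is the bit at the
node `v` if the input is `x`. Every node is a test of one letter (an arbitrary function of the
`i`-th letter), or a gate of one of the following kinds, where an element `(u, b)` of the set `J` of
wires is a wire from the node `u`, which is true if the bit at `u` is `b` (so negations are free): an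
arbitrary gate with at most `w` wires (its value is a function of the set of its true wires), an AND
gate with any number of wires, an OR gate with any number of wires. The depth grows along the
wires. -/
structure Circuit (α : Type) (w n : ℕ) where
  /-- the nodes -/
  Node : Type
  /-- there are finitely many nodes -/
  [finite : Finite Node]
  /-- the bit at a node, for a given input -/
  val : Node → (Fin n → α) → Bool
  /-- the depth of a node -/
  depth : Node → ℕ
  /-- every node is a test of a letter or a gate -/
  rule : ∀ v : Node, (∃ (i : Fin n) (T : α → Bool), ∀ x, val v x = T (x i)) ∨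
    ∃ J : Finset (Node × Bool), (∀ u ∈ J, depth u.1 < depth v) ∧
      ((J.card ≤ w ∧ ∃ F : Finset (Node × Bool) → Bool,
          ∀ x, val v x = F (J.filter fun u => val u.1 x = u.2)) ∨
        (∀ x, val v x = decide (∀ u ∈ J, val u.1 x = u.2)) ∨
        (∀ x, val v x = decide (∃ u ∈ J, val u.1 x = u.2)))

/-- the word `x`, with the letters at the positions in `B` replaced by those of `y` -/
def repl {α : Type} {n : ℕ} (B : Finset (Fin n)) (x y : Fin n → α) : Fin n → α :=
  fun i => if i ∈ B then y i else x i

open Classical in
/-- the letters of `y` at the positions in the blocks `B j` with `z j = true` -/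
noncomputable def mix {α : Type} {n J : ℕ} (B : Fin J → Finset (Fin n)) (x y : Fin n → α)
    (z : Fin J → Bool) : Fin n → α :=
  fun i => if ∃ j, i ∈ B j ∧ z j = true then y i else x i

section mixing
variable {α : Type} {n J : ℕ} {B : Fin J → Finset (Fin n)}

theorem mix_update (hB : ∀ j j', j ≠ j' → Disjoint (B j) (B j')) (x y : Fin n → α)
    (z : Fin J → Bool) (j : Fin J) :
    mix B x y (update z j (!z j)) = repl (B j) (mix B x y z) (mix B y x z) := by
  classical
  funext i
  show (if ∃ j', i ∈ B j' ∧ update z j (!z j) j' = true then y i else x i) =
    if i ∈ B j then (if ∃ j', i ∈ B j' ∧ z j' = true then x i else y i)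
      else (if ∃ j', i ∈ B j' ∧ z j' = true then y i else x i)
  by_cases hi : i ∈ B j
  · have huniq : ∀ j', i ∈ B j' → j' = j := by
      intro j' hj'
      by_contra hne
      exact (Finset.disjoint_left.1 (hB j' j hne)) hj' hi
    have h1 : (∃ j', i ∈ B j' ∧ update z j (!z j) j' = true) ↔ z j = false := by
      constructor
      · rintro ⟨j', hj', hz⟩
        obtain rfl := huniq j' hj'
        simpa using hz
      · intro hz
        exact ⟨j, hi, by simp [hz]⟩
    have h2 : (∃ j', i ∈ B j' ∧ z j' = true) ↔ z j = true := by
      constructor
      · rintro ⟨j', hj', hz⟩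
        obtain rfl := huniq j' hj'
        exact hz
      · intro hz
        exact ⟨j, hi, hz⟩
    rw [if_pos hi]
    by_cases hz : z j = true
    · rw [if_neg (fun h => by rw [h1] at h; rw [h] at hz; exact absurd hz (by decide)),
        if_pos (h2.2 hz)]
    · have hz' : z j = false := by simpa using hz
      rw [if_pos (h1.2 hz'), if_neg (fun h => hz (h2.1 h))]
  · rw [if_neg hi]
    have h1 : (∃ j', i ∈ B j' ∧ update z j (!z j) j' = true) ↔ ∃ j', i ∈ B j' ∧ z j' = true := by
      constructor
      · rintro ⟨j', hj', hz⟩
        have hne : j' ≠ j := fun h => hi (h ▸ hj')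
        rw [update_of_ne hne] at hz
        exact ⟨j', hj', hz⟩
      · rintro ⟨j', hj', hz⟩
        have hne : j' ≠ j := fun h => hi (h ▸ hj')
        exact ⟨j', hj', by rw [update_of_ne hne]; exact hz⟩
    by_cases h : ∃ j', i ∈ B j' ∧ z j' = true
    · rw [if_pos (h1.2 h), if_pos h]
    · rw [if_neg (fun h' => h (h1.1 h')), if_neg h]

/-- exchanging the letters of `x` and `y` in the blocks with `z j = true` -/
noncomputable def swp (B : Fin J → Finset (Fin n)) (z : Fin J → Bool)
    (p : (Fin n → α) × (Fin n → α)) : (Fin n → α) × (Fin n → α) :=
  (mix B p.1 p.2 z, mix B p.2 p.1 z)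

theorem swp_swp (z : Fin J → Bool) (p : (Fin n → α) × (Fin n → α)) :
    swp B z (swp B z p) = p := by
  unfold swp mix
  refine Prod.ext ?_ ?_
  · funext i
    dsimp only
    by_cases h : ∃ j, i ∈ B j ∧ z j = true
    · rw [if_pos h, if_pos h]
    · rw [if_neg h, if_neg h]
  · funext i
    dsimp only
    by_cases h : ∃ j, i ∈ B j ∧ z j = true
    · rw [if_pos h, if_pos h]
    · rw [if_neg h, if_neg h]

end mixing

section boolean
variable {α : Type} {w n J : ℕ}

/-- the Boolean circuit which computes the values of `C` at the words `mix B x y z` -/
theorem exists_bool (C : Circuit α w n) (hw : 1 ≤ w) (B : Fin J → Finset (Fin n))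
    (hB : ∀ j j', j ≠ j' → Disjoint (B j) (B j')) (x y : Fin n → α) :
    ∃ (D : Pool.Agent.Y603.MS.Circuit w J) (e : C.Node → D.Node), D.leak = ∅ ∧
      Nat.card D.Node = 2 * Nat.card C.Node ∧
      (∀ d : ℕ, (∀ v, C.depth v ≤ d) → ∀ v, D.depth v ≤ d + 1) ∧
      ∀ v z, D.val (e v) z = C.val v (mix B x y z) := by
  classical
  have := C.finite
  -- the block of the letter which is tested at a node
  let P : C.Node → Fin J → Prop := fun v j =>
    ∃ (i : Fin n) (T : α → Bool), (∀ u, C.val v u = T (u i)) ∧ i ∈ B j
  let vl : C.Node ⊕ C.Node → (Fin J → Bool) → Bool := Sum.elim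
    (fun v z => C.val v (mix B x y z))
    (fun v z => if h : ∃ j, P v j then z h.choose else false)
  let dp : C.Node ⊕ C.Node → ℕ := Sum.elim (fun v => C.depth v + 1) (fun _ => 0)
  refine ⟨{ Node := C.Node ⊕ C.Node, val := vl, depth := dp, leak := ∅, rule := ?_ }, Sum.inl, rfl,
    ?_, ?_, fun v z => rfl⟩
  · rintro (v | v)
    · right; right
      rcases C.rule v with ⟨i, T, hT⟩ | ⟨K, hdep, hK⟩
      · by_cases hi : ∃ j, i ∈ B j
        · obtain ⟨j, hj⟩ := hi
          have hP : ∃ j, P v j := ⟨j, i, T, hT, hj⟩
          -- the test at `v` is a function of the bit at `inr v`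
          refine ⟨{(Sum.inr v, true)}, ?_, Or.inl ⟨by simpa using hw, ?_⟩⟩
          · intro u hu
            rw [mem_singleton] at hu
            rw [hu]
            exact Nat.succ_pos _
          · obtain ⟨i', T', hT', hj'⟩ := hP.choose_spec
            set j' := hP.choose with hj'def
            refine ⟨fun S => if (Sum.inr v, true) ∈ S then T' (y i') else T' (x i'), fun z => ?_⟩
            have h1 : vl (Sum.inr v) z = z j' := by
              show (if h : ∃ j, P v j then z h.choose else false) = _
              rw [dif_pos hP]
            have h2 : vl (Sum.inl v) z = T' (mix B x y z i') := hT' _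
            rw [h2]
            have huniq : ∀ j'', i' ∈ B j'' → j'' = j' := by
              intro j'' hj''
              by_contra hne
              exact (Finset.disjoint_left.1 (hB j'' j' hne)) hj'' hj'
            by_cases hz : z j' = true
            · have hm : mix B x y z i' = y i' := if_pos ⟨j', hj', hz⟩
              rw [hm]
              simp [h1, hz]
            · have hm : mix B x y z i' = x i' := by
                refine if_neg ?_
                rintro ⟨j'', hj'', hz''⟩
                rw [huniq j'' hj''] at hz''
                exact hz hz''
              rw [hm]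
              simp [h1, hz]
        · refine ⟨∅, fun u hu => absurd hu (Finset.notMem_empty _), Or.inl ⟨by simp, ?_⟩⟩
          refine ⟨fun _ => T (x i), fun z => ?_⟩
          show C.val v (mix B x y z) = _
          rw [hT]
          congr 1
          refine if_neg ?_
          rintro ⟨j, hj, _⟩
          exact hi ⟨j, hj⟩
      · let em : C.Node × Bool ↪ (C.Node ⊕ C.Node) × Bool :=
          ⟨fun u => (Sum.inl u.1, u.2), fun a b h => by
            simp only [Prod.mk.injEq, Sum.inl.injEq] at h
            exact Prod.ext h.1 h.2⟩
        refine ⟨K.map em, ?_, ?_⟩
        · intro u hu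
          obtain ⟨a, ha, rfl⟩ := mem_map.1 hu
          exact Nat.succ_lt_succ (hdep a ha)
        · rcases hK with ⟨hc, F, hF⟩ | hF | hF
          · left
            refine ⟨by rwa [card_map], fun S => F (K.filter fun u => em u ∈ S), fun z => ?_⟩
            show C.val v (mix B x y z) = _
            rw [hF]
            congr 1
            ext a
            rw [mem_filter, mem_filter]
            refine and_congr_right fun ha => ?_
            rw [mem_filter]
            exact ⟨fun h => ⟨mem_map_of_mem _ ha, h⟩, fun h => h.2⟩
          · right; left
            intro z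
            show C.val v (mix B x y z) = _
            rw [hF]
            congr 1
            apply propext
            constructor
            · intro h u hu
              obtain ⟨a, ha, rfl⟩ := mem_map.1 hu
              exact h a ha
            · intro h a ha
              exact h (em a) (mem_map_of_mem _ ha)
          · right; right
            intro z
            show C.val v (mix B x y z) = _
            rw [hF]
            congr 1
            apply propext
            constructor
            · rintro ⟨a, ha, h⟩
              exact ⟨em a, mem_map_of_mem _ ha, h⟩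
            · rintro ⟨u, hu, h⟩
              obtain ⟨a, ha, rfl⟩ := mem_map.1 hu
              exact ⟨a, ha, h⟩
    · by_cases hP : ∃ j, P v j
      · right; left
        exact ⟨hP.choose, fun z => dif_pos hP⟩
      · right; right
        refine ⟨∅, fun u hu => absurd hu (Finset.notMem_empty _), Or.inl ⟨by simp, ?_⟩⟩
        exact ⟨fun _ => false, fun z => dif_neg hP⟩
  · show Nat.card (C.Node ⊕ C.Node) = _
    rw [Nat.card_sum]
    ring
  · intro d hd v
    rcases v with v | v
    · exact Nat.succ_le_succ (hd v)
    · exact Nat.zero_le _

end boolean

end Pool.Agent.X222.AP
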