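import Pool.Agent.X222.AP.Main

set_option autoImplicit false

/-!
# Sets with blocks whose contents fall into few classes
-/

namespace Pool.Agent.X222.AP

open Finset Function

section
variable {p n : ℕ} [NeZero p] {J m N : ℕ} {Cls : Fin J → Type}

/-- the words which agree with `x` outside of the block `B` -/
def fib (B : Finset (Fin n)) (x : Fin n → ZMod p) : Finset (Fin n → ZMod p) :=
  univ.filter fun y => ∀ i, i ∉ B → y i = x i

theorem mem_fib {B : Finset (Fin n)} {x y : Fin n → ZMod p} :
    y ∈ fib B x ↔ ∀ i, i ∉ B → y i = x i := by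
  unfold fib
  rw [mem_filter]
  exact ⟨fun h => h.2, fun h => ⟨mem_univ _, h⟩⟩

theorem mem_fib_comm {B : Finset (Fin n)} {x y : Fin n → ZMod p} : y ∈ fib B x ↔ x ∈ fib B y := by
  rw [mem_fib, mem_fib]
  exact ⟨fun h i hi => (h i hi).symm, fun h i hi => (h i hi).symm⟩

theorem fib_eq {B : Finset (Fin n)} {x y : Fin n → ZMod p} (h : y ∈ fib B x) : fib B y = fib B x := by
  rw [mem_fib] at h
  ext z
  rw [mem_fib, mem_fib]
  exact forall_congr' fun i => imp_congr_right fun hi => by rw [h i hi]

theorem card_fib {B : Finset (Fin n)} (x : Fin n → ZMod p) : (fib B x).card = p ^ B.card := by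
  classical
  have h1 : fib B x = Fintype.piFinset (fun i => if i ∈ B then (univ : Finset (ZMod p)) else {x i}) := by
    ext y
    rw [mem_fib, Fintype.mem_piFinset]
    constructor
    · intro h i
      by_cases hi : i ∈ B
      · rw [if_pos hi]
        exact mem_univ _
      · rw [if_neg hi, mem_singleton]
        exact h i hi
    · intro h i hi
      have := h i
      rw [if_neg hi, mem_singleton] at this
      exact this
  rw [h1, Fintype.card_piFinset]
  have h2 : ∀ i, ((if i ∈ B then (univ : Finset (ZMod p)) else {x i}) : Finset (ZMod p)).card =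
      if i ∈ B then p else 1 := by
    intro i
    split_ifs
    · rw [card_univ, ZMod.card]
    · exact card_singleton _
  rw [prod_congr rfl fun i _ => h2 i, prod_ite, prod_const_one, mul_one, prod_const,
    filter_mem_eq_inter, univ_inter]

open Classical in
/-- the class of `x` in the block `j` -/
noncomputable def cl (B : Fin J → Finset (Fin n)) (κ : (Fin n → ZMod p) → ∀ j, Cls j)
    (j : Fin J) (x : Fin n → ZMod p) : Finset (Fin n → ZMod p) :=
  (fib (B j) x).filter fun y => κ y j = κ x j

/-- the class is small -/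
def Small (N m : ℕ) (B : Fin J → Finset (Fin n)) (κ : (Fin n → ZMod p) → ∀ j, Cls j) (j : Fin J)
    (x : Fin n → ZMod p) : Prop := 16 * N * (cl B κ j x).card < p ^ m

variable [∀ j, Fintype (Cls j)]

open Classical in
/-- few words of a fibre are in small classes -/
theorem small_fib (hN : ∀ j, Fintype.card (Cls j) ≤ N) (B : Fin J → Finset (Fin n))
    (κ : (Fin n → ZMod p) → ∀ j, Cls j) (j : Fin J) (x : Fin n → ZMod p) :
    16 * ((fib (B j) x).filter fun y => Small N m B κ j y).card ≤ p ^ m := by
  by_cases hN0 : N = 0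
  · have : IsEmpty (Cls j) := Fintype.card_eq_zero_iff.1 (by have := hN j; omega)
    exact isEmptyElim (κ x j)
  have hN1 : 0 < N := Nat.pos_of_ne_zero hN0
  set G := (fib (B j) x).filter fun y => Small N m B κ j y with hG
  have h1 : G.card = ∑ c : Cls j, (G.filter fun y => κ y j = c).card :=
    card_eq_sum_card_fiberwise (fun _ _ => mem_univ _)
  have h2 : ∀ c : Cls j, 16 * N * (G.filter fun y => κ y j = c).card ≤ p ^ m := by
    intro c
    by_cases hne : (G.filter fun y => κ y j = c).Nonempty
    · obtain ⟨y, hy⟩ := hne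
      obtain ⟨hy1, hy2⟩ := mem_filter.1 hy
      obtain ⟨hy3, hy4⟩ := mem_filter.1 hy1
      refine le_trans (Nat.mul_le_mul_left _ (card_le_card ?_)) hy4.le
      intro z hz
      obtain ⟨hz1, hz2⟩ := mem_filter.1 hz
      obtain ⟨hz3, _⟩ := mem_filter.1 hz1
      refine mem_filter.2 ⟨?_, hz2.trans hy2.symm⟩
      rw [fib_eq hy3]
      exact hz3
    · rw [not_nonempty_iff_eq_empty.1 hne, card_empty, mul_zero]
      exact Nat.zero_le _
  have h3 : N * (16 * G.card) ≤ N * p ^ m := by
    calc N * (16 * G.card) = ∑ c : Cls j, 16 * N * (G.filter fun y => κ y j = c).card := by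
          rw [← mul_sum, ← h1]
          ring
      _ ≤ ∑ _c : Cls j, p ^ m := sum_le_sum fun c _ => h2 c
      _ = Fintype.card (Cls j) * p ^ m := by rw [sum_const, smul_eq_mul, card_univ]
      _ ≤ N * p ^ m := Nat.mul_le_mul_right _ (hN j)
  exact Nat.le_of_mul_le_mul_left h3 hN1

omit [∀ j, Fintype (Cls j)] in
/-- smallness at `j` does not depend on the other blocks -/
theorem small_local {B : Fin J → Finset (Fin n)} (hB : ∀ j j', j ≠ j' → Disjoint (B j) (B j'))
    {κ : (Fin n → ZMod p) → ∀ j, Cls j}
    (hκ : ∀ j x x', (∀ i, (∀ j', j' ≠ j → i ∉ B j') → x i = x' i) → κ x j = κ x' j) {j j' : Fin J}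
    (hne : j ≠ j') {x y : Fin n → ZMod p} (hxy : y ∈ fib (B j) x) (h : Small N m B κ j' x) :
    Small N m B κ j' y := by
  classical
  rw [mem_fib] at hxy
  unfold Small at h ⊢
  refine lt_of_le_of_lt (le_of_eq ?_) h
  congr 1
  -- the bijection changes the block `j`
  refine card_bij' (fun z _ => fun i => if i ∈ B j then x i else z i)
    (fun z _ => fun i => if i ∈ B j then y i else z i) ?_ ?_ ?_ ?_
  · intro z hz
    obtain ⟨hz1, hz2⟩ := mem_filter.1 hz
    rw [mem_fib] at hz1
    refine mem_filter.2 ⟨mem_fib.2 fun i hi => ?_, ?_⟩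
    · by_cases hij : i ∈ B j
      · rw [if_pos hij]
      · rw [if_neg hij, hz1 i hi, hxy i hij]
    · have e1 : κ (fun i => if i ∈ B j then x i else z i) j' = κ z j' := by
        apply hκ
        intro i hi
        rw [if_neg (hi j hne)]
      have e2 : κ x j' = κ y j' := by
        apply hκ
        intro i hi
        exact (hxy i (hi j hne)).symm
      rw [e1, hz2, e2]
  · intro z hz
    obtain ⟨hz1, hz2⟩ := mem_filter.1 hz
    rw [mem_fib] at hz1
    refine mem_filter.2 ⟨mem_fib.2 fun i hi => ?_, ?_⟩
    · by_cases hij : i ∈ B j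
      · rw [if_pos hij]
      · rw [if_neg hij, hz1 i hi, hxy i hij]
    · have e1 : κ (fun i => if i ∈ B j then y i else z i) j' = κ z j' := by
        apply hκ
        intro i hi
        rw [if_neg (hi j hne)]
      have e2 : κ x j' = κ y j' := by
        apply hκ
        intro i hi
        exact (hxy i (hi j hne)).symm
      rw [e1, hz2, e2]
  · intro z hz
    obtain ⟨hz1, _⟩ := mem_filter.1 hz
    rw [mem_fib] at hz1
    funext i
    show (if i ∈ B j then y i else (if i ∈ B j then x i else z i)) = z i
    by_cases hij : i ∈ B j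
    · have : i ∉ B j' := fun h => (Finset.disjoint_left.1 (hB j j' hne)) hij h
      rw [if_pos hij, hz1 i this]
    · rw [if_neg hij, if_neg hij]
  · intro z hz
    obtain ⟨hz1, _⟩ := mem_filter.1 hz
    rw [mem_fib] at hz1
    funext i
    show (if i ∈ B j then x i else (if i ∈ B j then y i else z i)) = z i
    by_cases hij : i ∈ B j
    · have : i ∉ B j' := fun h => (Finset.disjoint_left.1 (hB j j' hne)) hij h
      rw [if_pos hij, hz1 i this]
    · rw [if_neg hij, if_neg hij]

open Classical in
/-- words with small classes in given blocks -/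
theorem small_set (hN : ∀ j, Fintype.card (Cls j) ≤ N) {B : Fin J → Finset (Fin n)}
    (hBm : ∀ j, (B j).card = m) (hB : ∀ j j', j ≠ j' → Disjoint (B j) (B j'))
    {κ : (Fin n → ZMod p) → ∀ j, Cls j}
    (hκ : ∀ j x x', (∀ i, (∀ j', j' ≠ j → i ∉ B j') → x i = x' i) → κ x j = κ x' j)
    (T : Finset (Fin J)) :
    16 ^ T.card * (univ.filter fun x : Fin n → ZMod p => ∀ j ∈ T, Small N m B κ j x).card ≤ p ^ n := by
  induction T using Finset.induction_on with
  | empty =>
    rw [card_empty, pow_zero, one_mul]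
    refine (card_le_univ _).trans (le_of_eq ?_)
    rw [Fintype.card_fun, ZMod.card, Fintype.card_fin]
  | insert j T hj ih =>
    have hp : 0 < p := Nat.pos_of_ne_zero (NeZero.ne p)
    set G := univ.filter fun x : Fin n → ZMod p => ∀ j ∈ T, Small N m B κ j x with hG
    set G' := univ.filter fun x : Fin n → ZMod p => ∀ j' ∈ insert j T, Small N m B κ j' x with hG'
    have h1 : 16 * G'.card ≤ G.card := by
      set P : Finset ((Fin n → ZMod p) × (Fin n → ZMod p)) :=
        (G' ×ˢ G).filter fun q => q.2 ∈ fib (B j) q.1 with hP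
      have h2 : G'.card * p ^ m = P.card := by
        have h3 : P.card = ∑ x ∈ G', (G.filter fun y => y ∈ fib (B j) x).card := by
          rw [hP, card_filter, sum_product, sum_congr rfl fun x _ => (card_filter _ _).symm]
        rw [h3, ← smul_eq_mul, ← sum_const]
        refine sum_congr rfl fun x hx => ?_
        have hx' := (mem_filter.1 hx).2
        have h4 : (G.filter fun y => y ∈ fib (B j) x) = fib (B j) x := by
          ext y
          rw [mem_filter]
          refine ⟨fun h => h.2, fun h => ⟨mem_filter.2 ⟨mem_univ _, fun j' hj' => ?_⟩, h⟩⟩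
          have hne : j ≠ j' := fun h => hj (h ▸ hj')
          exact small_local hB hκ hne h (hx' j' (mem_insert_of_mem hj'))
        rw [h4, card_fib, hBm]
      have h3 : 16 * P.card ≤ G.card * p ^ m := by
        have h4 : P.card = ∑ y ∈ G, (G'.filter fun x => y ∈ fib (B j) x).card := by
          rw [hP, card_filter, sum_product_right, sum_congr rfl fun x _ => (card_filter _ _).symm]
        rw [h4, mul_sum, ← smul_eq_mul (a := G.card), ← sum_const]
        refine sum_le_sum fun y _ => ?_
        refine le_trans (Nat.mul_le_mul_left _ (card_le_card ?_)) (small_fib hN B κ j y)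
        intro x hx
        obtain ⟨hx1, hx2⟩ := mem_filter.1 hx
        exact mem_filter.2 ⟨mem_fib_comm.1 hx2, (mem_filter.1 hx1).2 j (mem_insert_self _ _)⟩
      have h4 : 16 * G'.card * p ^ m ≤ G.card * p ^ m := by
        calc 16 * G'.card * p ^ m = 16 * (G'.card * p ^ m) := by ring
          _ = 16 * P.card := by rw [h2]
          _ ≤ _ := h3
      exact Nat.le_of_mul_le_mul_right h4 (Nat.pow_pos hp)
    rw [card_insert_of_notMem hj, pow_succ]
    calc 16 ^ T.card * 16 * G'.card = 16 ^ T.card * (16 * G'.card) := by ring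
      _ ≤ 16 ^ T.card * G.card := Nat.mul_le_mul_left _ h1
      _ ≤ p ^ n := ih

open Classical in
/-- words with many small classes -/
theorem bad_small (hN : ∀ j, Fintype.card (Cls j) ≤ N) {B : Fin J → Finset (Fin n)}
    (hBm : ∀ j, (B j).card = m) (hB : ∀ j j', j ≠ j' → Disjoint (B j) (B j'))
    {κ : (Fin n → ZMod p) → ∀ j, Cls j}
    (hκ : ∀ j x x', (∀ i, (∀ j', j' ≠ j → i ∉ B j') → x i = x' i) → κ x j = κ x' j) :
    2 ^ J * (univ.filter fun x : Fin n → ZMod p =>
      J ≤ 2 * (univ.filter fun j => Small N m B κ j x).card).card ≤ p ^ n := by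
  set Bad := univ.filter fun x : Fin n → ZMod p =>
      J ≤ 2 * (univ.filter fun j => Small N m B κ j x).card with hBad
  set TT := (univ : Finset (Finset (Fin J))).filter fun T => J ≤ 2 * T.card with hTT
  have h1 : Bad ⊆ TT.biUnion fun T => univ.filter fun x => ∀ j ∈ T, Small N m B κ j x := by
    intro x hx
    have hx' := (mem_filter.1 hx).2
    refine mem_biUnion.2 ⟨univ.filter fun j => Small N m B κ j x, mem_filter.2 ⟨mem_univ _, hx'⟩, ?_⟩
    exact mem_filter.2 ⟨mem_univ _, fun j hj => (mem_filter.1 hj).2⟩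
  have h2 : 4 ^ J * Bad.card ≤ TT.card * p ^ n := by
    calc 4 ^ J * Bad.card ≤ 4 ^ J * ∑ T ∈ TT, (univ.filter fun x : Fin n → ZMod p =>
          ∀ j ∈ T, Small N m B κ j x).card :=
          Nat.mul_le_mul_left _ ((card_le_card h1).trans card_biUnion_le)
      _ = ∑ T ∈ TT, 4 ^ J * (univ.filter fun x : Fin n → ZMod p =>
          ∀ j ∈ T, Small N m B κ j x).card := by rw [mul_sum]
      _ ≤ ∑ _T ∈ TT, p ^ n := by
          refine sum_le_sum fun T hT => ?_
          refine le_trans (Nat.mul_le_mul_right _ ?_) (small_set hN hBm hB hκ T)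
          rw [show (16 : ℕ) = 4 ^ 2 by norm_num, ← pow_mul]
          exact Nat.pow_le_pow_right (by norm_num) (mem_filter.1 hT).2
      _ = TT.card * p ^ n := by rw [sum_const, smul_eq_mul]
  have h3 : TT.card ≤ 2 ^ J := by
    refine (card_le_univ _).trans (le_of_eq ?_)
    rw [Fintype.card_finset, Fintype.card_fin]
  have h4 : 2 ^ J * (2 ^ J * Bad.card) ≤ 2 ^ J * p ^ n := by
    calc 2 ^ J * (2 ^ J * Bad.card) = 4 ^ J * Bad.card := by
          rw [← mul_assoc, ← mul_pow]
          norm_num
      _ ≤ TT.card * p ^ n := h2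
      _ ≤ _ := Nat.mul_le_mul_right _ h3
  exact Nat.le_of_mul_le_mul_left h4 (by positivity)

omit [∀ j, Fintype (Cls j)] in
open Classical in
/-- progression-free subsets of a set given by few classes -/
theorem large_block {k R : ℕ} {Λ : Set (ZMod p)} (h0 : (0 : ZMod p) ∈ Λ)
    (hR : ∀ A : Finset (Fin m → ZMod p), APFree k Λ A → A.card ≤ R) {B : Fin J → Finset (Fin n)}
    (hBm : ∀ j, (B j).card = m)
    {κ : (Fin n → ZMod p) → ∀ j, Cls j}
    (hκ : ∀ j x x', (∀ i, (∀ j', j' ≠ j → i ∉ B j') → x i = x' i) → κ x j = κ x' j)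
    (S F : Finset (Fin n → ZMod p)) (hS : APFree k Λ S)
    (hF : ∀ x x', x ∈ F → (∀ i, (∀ j, i ∉ B j) → x i = x' i) → (∀ j, κ x j = κ x' j) → x' ∈ F)
    (j : Fin J) : ((S ∩ F).filter fun x => ¬ Small N m B κ j x).card * p ^ m ≤
      16 * N * (R * F.card) := by
  set G := (S ∩ F).filter fun x => ¬ Small N m B κ j x with hG
  set P : Finset ((Fin n → ZMod p) × (Fin n → ZMod p)) :=
    (G ×ˢ F).filter fun q => q.2 ∈ cl B κ j q.1 with hP
  have h1 : G.card * p ^ m ≤ 16 * N * P.card := by
    have h3 : P.card = ∑ x ∈ G, (F.filter fun y => y ∈ cl B κ j x).card := by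
      rw [hP, card_filter, sum_product, sum_congr rfl fun x _ => (card_filter _ _).symm]
    rw [h3, mul_sum, ← smul_eq_mul (a := G.card), ← sum_const]
    refine sum_le_sum fun x hx => ?_
    obtain ⟨hx1, hx2⟩ := mem_filter.1 hx
    have h4 : (F.filter fun y => y ∈ cl B κ j x) = cl B κ j x := by
      ext y
      rw [mem_filter]
      refine ⟨fun h => h.2, fun h => ⟨?_, h⟩⟩
      obtain ⟨hy1, hy2⟩ := mem_filter.1 h
      rw [mem_fib] at hy1
      refine hF x y (mem_inter.1 hx1).2 (fun i hi => (hy1 i (hi j)).symm) fun j' => ?_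
      by_cases hjj : j' = j
      · rw [hjj]
        exact hy2.symm
      · apply hκ
        intro i hi
        exact (hy1 i (hi j (Ne.symm hjj))).symm
    rw [h4]
    unfold Small at hx2
    exact not_lt.1 hx2
  have h2 : P.card ≤ R * F.card := by
    have h3 : P.card = ∑ y ∈ F, (G.filter fun x => y ∈ cl B κ j x).card := by
      rw [hP, card_filter, sum_product_right, sum_congr rfl fun x _ => (card_filter _ _).symm]
    rw [h3, mul_comm, ← smul_eq_mul, ← sum_const]
    refine sum_le_sum fun y _ => ?_
    refine le_trans (card_le_card ?_) (fiber h0 hR S hS (B j) (hBm j) y)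
    intro x hx
    obtain ⟨hx1, hx2⟩ := mem_filter.1 hx
    have hx3 := (mem_filter.1 hx2).1
    rw [mem_fib] at hx3
    exact mem_filter.2 ⟨(mem_inter.1 (mem_filter.1 hx1).1).1, fun i hi => (hx3 i hi).symm⟩
  exact h1.trans (Nat.mul_le_mul_left _ h2)

/-- **Progression-free subsets of a set given by few classes of the contents of many blocks.** -/
theorem classes_bound {k R : ℕ} {Λ : Set (ZMod p)} (h0 : (0 : ZMod p) ∈ Λ)
    (hR : ∀ A : Finset (Fin m → ZMod p), APFree k Λ A → A.card ≤ R)
    (hN : ∀ j, Fintype.card (Cls j) ≤ N) {B : Fin J → Finset (Fin n)}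
    (hBm : ∀ j, (B j).card = m) (hB : ∀ j j', j ≠ j' → Disjoint (B j) (B j'))
    {κ : (Fin n → ZMod p) → ∀ j, Cls j}
    (hκ : ∀ j x x', (∀ i, (∀ j', j' ≠ j → i ∉ B j') → x i = x' i) → κ x j = κ x' j)
    (S F : Finset (Fin n → ZMod p)) (hS : APFree k Λ S)
    (hF : ∀ x x', x ∈ F → (∀ i, (∀ j, i ∉ B j) → x i = x' i) → (∀ j, κ x j = κ x' j) → x' ∈ F) :
    ((S ∩ F).card : ℝ) ≤ 32 * N * (R / p ^ m) * F.card + p ^ n / 2 ^ J := by
  classical
  have hp : 0 < p := Nat.pos_of_ne_zero (NeZero.ne p)
  have hpR : (0 : ℝ) < p := by exact_mod_cast hp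
  have hpm : (0 : ℝ) < p ^ m := by positivity
  set Bad := univ.filter fun x : Fin n → ZMod p =>
      J ≤ 2 * (univ.filter fun j => Small N m B κ j x).card with hBad
  have h1 : (Bad.card : ℝ) ≤ p ^ n / 2 ^ J := by
    rw [le_div_iff₀ (by positivity)]
    have := bad_small (m := m) hN hBm hB hκ
    rw [← hBad] at this
    have h2 : ((2 ^ J * Bad.card : ℕ) : ℝ) ≤ ((p ^ n : ℕ) : ℝ) := by exact_mod_cast this
    push_cast at h2
    linarith
  have hcov : ((S ∩ F).card : ℝ) ≤ (((S ∩ F) \ Bad).card : ℝ) + Bad.card := by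
    have h3 : (S ∩ F).card ≤ ((S ∩ F) \ Bad).card + Bad.card := by
      refine (card_le_card ?_).trans (card_union_le ((S ∩ F) \ Bad) Bad)
      rw [sdiff_union_self_eq_union]
      exact subset_union_left
    exact_mod_cast h3
  have hmain : (((S ∩ F) \ Bad).card : ℝ) ≤ 32 * N * (R / p ^ m) * F.card := by
    by_cases hJ : J = 0
    · have : (S ∩ F) \ Bad = ∅ := by
        rw [sdiff_eq_empty_iff_subset]
        intro x _
        exact mem_filter.2 ⟨mem_univ _, by omega⟩
      rw [this, card_empty, Nat.cast_zero]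
      positivity
    · have h2 : ((S ∩ F) \ Bad).card * J ≤
          2 * ∑ j, ((S ∩ F).filter fun x => ¬ Small N m B κ j x).card := by
        have h3 : ∑ j, (((S ∩ F) \ Bad).filter fun x => ¬ Small N m B κ j x).card ≤
            ∑ j, ((S ∩ F).filter fun x => ¬ Small N m B κ j x).card :=
          sum_le_sum fun j _ => card_le_card (filter_subset_filter _ sdiff_subset)
        refine le_trans ?_ (Nat.mul_le_mul_left 2 h3)
        rw [sum_congr rfl fun j _ => card_filter _ _, sum_comm,
          sum_congr rfl fun x _ => (card_filter _ _).symm, mul_sum, ← smul_eq_mul, ← sum_const]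
        refine sum_le_sum fun x hx => ?_
        have hx' : ¬ J ≤ 2 * (univ.filter fun j => Small N m B κ j x).card := by
          intro h
          exact (mem_sdiff.1 hx).2 (mem_filter.2 ⟨mem_univ _, h⟩)
        have h4 : (univ.filter fun j => Small N m B κ j x).card +
            (univ.filter fun j => ¬ Small N m B κ j x).card = J := by
          rw [card_filter_add_card_filter_not, card_univ, Fintype.card_fin]
        omega
      have h5 : ((S ∩ F) \ Bad).card * J * p ^ m ≤ 2 * (J * (16 * N * (R * F.card))) := by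
        calc ((S ∩ F) \ Bad).card * J * p ^ m ≤
              (2 * ∑ j, ((S ∩ F).filter fun x => ¬ Small N m B κ j x).card) * p ^ m :=
              Nat.mul_le_mul_right _ h2
          _ = 2 * ∑ j, ((S ∩ F).filter fun x => ¬ Small N m B κ j x).card * p ^ m := by
              rw [mul_assoc, sum_mul]
          _ ≤ 2 * ∑ _j : Fin J, 16 * N * (R * F.card) :=
              Nat.mul_le_mul_left 2 (sum_le_sum fun j _ => large_block h0 hR hBm hκ S F hS hF j)
          _ = _ := by rw [sum_const, smul_eq_mul, card_univ, Fintype.card_fin]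
      have hJ1 : (0 : ℝ) < J := by exact_mod_cast Nat.pos_of_ne_zero hJ
      have h6 : (((S ∩ F) \ Bad).card : ℝ) * J * p ^ m ≤ 2 * (J * (16 * N * (R * F.card))) := by
        exact_mod_cast h5
      have h7 : (((S ∩ F) \ Bad).card : ℝ) * p ^ m ≤ 32 * N * (R * F.card) := by
        have : J * ((((S ∩ F) \ Bad).card : ℝ) * p ^ m) ≤ J * (32 * N * (R * F.card)) := by
          linarith
        exact le_of_mul_le_mul_left this hJ1
      rw [show 32 * N * ((R : ℝ) / p ^ m) * F.card = (32 * N * (R * F.card)) / p ^ m by ring,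
        le_div_iff₀ hpm]
      exact h7
  linarith

end

end Pool.Agent.X222.AP
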