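import Pool.Agent.X222.AP.Rel

set_option autoImplicit false

/-!
# Progression-free sets and circuits of constant depth
-/

namespace Pool.Agent.X222.AP

open Finset Function

/-- `loss w ℓ d = (d + 1) (2 ^ (d + 10) w (ℓ + 1)) ^ (d + 1)` -/
def loss (w ℓ d : ℕ) : ℕ := (d + 1) * (2 ^ (d + 10) * (w * (ℓ + 1))) ^ (d + 1)

/-- `F` is decided by a circuit of depth at most `d` with at most `2 ^ ℓ` nodes. -/
def Decided {p n : ℕ} (w ℓ d : ℕ) (F : Finset (Fin n → ZMod p)) : Prop :=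
  ∃ (C : Circuit (ZMod p) w n) (o : C.Node), Nat.card C.Node ≤ 2 ^ ℓ ∧ (∀ v, C.depth v ≤ d) ∧
    ∀ x, x ∈ F ↔ C.val o x = true

variable {p n : ℕ} [NeZero p]

theorem loss_pos {w ℓ d : ℕ} (hw : 1 ≤ w) : 0 < loss w ℓ d := by
  unfold loss
  positivity

open Classical in
theorem bad_bound {w ℓ d m s J : ℕ} (hw : 1 ≤ w) (F : Finset (Fin n → ZMod p))
    (hF : Decided w ℓ d F) (B : Fin J → Finset (Fin n))
    (hB : ∀ j j', j ≠ j' → Disjoint (B j) (B j')) (hBm : ∀ j, (B j).card ≤ m)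
    (Bad : Finset (Fin n → ZMod p))
    (hBad : ∀ x ∈ Bad, x ∈ F ∧ s ≤ (univ.filter fun j => ∃ y, repl (B j) x y ∉ F).card) :
    Bad.card * 4 ^ (s / (4 * p ^ m * loss w ℓ d)) ≤ 2 ^ (2 * ℓ + 5) * (p ^ m * p ^ n) := by
  obtain ⟨C, o, hs, hd, hCF⟩ := hF
  have hα : Fintype.card (ZMod p) = p := ZMod.card p
  have hp : 0 < p := Nat.pos_of_ne_zero (NeZero.ne p)
  have hpm : 0 < p ^ m := Nat.pow_pos hp
  have hpn : 0 < p ^ n := Nat.pow_pos hp
  set X := s / (4 * p ^ m * loss w ℓ d) with hX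
  by_cases hXl : X ≤ ℓ + 2
  · have h1 : Bad.card ≤ p ^ n := by
      refine (card_le_univ _).trans (le_of_eq ?_)
      rw [Fintype.card_fun, hα, Fintype.card_fin]
    calc Bad.card * 4 ^ X ≤ p ^ n * 4 ^ (ℓ + 2) :=
          Nat.mul_le_mul h1 (Nat.pow_le_pow_right (by norm_num) hXl)
      _ = 2 ^ (2 * ℓ + 4) * (1 * p ^ n) := by
          rw [show (4 : ℕ) = 2 ^ 2 by norm_num, ← pow_mul, one_mul, mul_comm]
          ring_nf
      _ ≤ _ := Nat.mul_le_mul (Nat.pow_le_pow_right (by norm_num) (by omega))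
          (Nat.mul_le_mul_right _ hpm)
  · push Not at hXl
    obtain ⟨t, ht⟩ : ∃ t, X = t + (ℓ + 2) := ⟨X - (ℓ + 2), by omega⟩
    have ht1 : 1 ≤ t := by omega
    have h1 : 2 * p ^ m * thr w ℓ d t ≤ s := by
      have h2 : 4 * p ^ m * loss w ℓ d * X ≤ s := Nat.mul_div_le _ _
      refine le_trans ?_ h2
      rw [ht]
      unfold thr loss
      set K := (2 ^ (d + 10) * (w * (ℓ + 1))) ^ (d + 1)
      have h3 : (d + 1) * t + (ℓ + 1) + 1 ≤ (d + 1) * (t + (ℓ + 2)) := by nlinarith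
      calc 2 * p ^ m * (2 * K * ((d + 1) * t + (ℓ + 1) + 1))
          ≤ 2 * p ^ m * (2 * K * ((d + 1) * (t + (ℓ + 2)))) := by gcongr
        _ = _ := by ring
    have h2 := tail (α := ZMod p) (by rw [hα]; exact hp) C o B hB hw ht1 hs hd (le_refl _) F hCF hBm
      (by rw [hα]; exact h1) Bad hBad
    rw [hα] at h2
    rw [ht, pow_add]
    calc Bad.card * (4 ^ t * 4 ^ (ℓ + 2)) = Bad.card * 4 ^ t * 4 ^ (ℓ + 2) := by ring
      _ ≤ 2 * p ^ m * p ^ n * 4 ^ (ℓ + 2) := Nat.mul_le_mul_right _ h2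
      _ = _ := by
        rw [show (4 : ℕ) = 2 ^ 2 by norm_num, ← pow_mul]
        ring

theorem div_ge (a b : ℕ) (hb : 0 < b) : (a : ℝ) / b - 1 ≤ ((a / b : ℕ) : ℝ) := by
  have h1 : a < b * (a / b + 1) := Nat.lt_mul_div_succ a hb
  have h2 : (a : ℝ) < b * (((a / b : ℕ) : ℝ) + 1) := by exact_mod_cast h1
  have hb' : (0 : ℝ) < b := by exact_mod_cast hb
  have h3 : (a : ℝ) / b < ((a / b : ℕ) : ℝ) + 1 := by
    rw [div_lt_iff₀ hb']
    linarith
  linarith

/-- from the bound in `ℕ` to a bound with real exponents -/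
theorem real_bound {a b X : ℕ} {y z : ℝ} (h : a * 4 ^ X ≤ 2 ^ b * z) (hz : 0 ≤ z)
    (hy : y ≤ X) : (a : ℝ) ≤ z * (2 : ℝ) ^ ((b : ℝ) - 2 * y) := by
  have h1 : (4 : ℝ) ^ X = (2 : ℝ) ^ (2 * (X : ℝ)) := by
    rw [Real.rpow_mul (by norm_num), Real.rpow_natCast]
    norm_num
  have h2 : (0 : ℝ) < (2 : ℝ) ^ (2 * (X : ℝ)) := by positivity
  have h3 : (a : ℝ) ≤ 2 ^ b * z / (2 : ℝ) ^ (2 * (X : ℝ)) := by
    rw [le_div_iff₀ h2, ← h1]
    exact h
  refine h3.trans ?_
  have h4 : (2 : ℝ) ^ b = (2 : ℝ) ^ (b : ℝ) := (Real.rpow_natCast 2 b).symm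
  rw [h4, mul_comm ((2 : ℝ) ^ (b : ℝ)) z, mul_div_assoc, ← Real.rpow_sub (by norm_num)]
  refine mul_le_mul_of_nonneg_left ?_ hz
  exact Real.rpow_le_rpow_of_exponent_le (by norm_num) (by linarith)

/-- **Progression-free unions of sets decided by circuits are small.** -/
theorem union_bound (k : ℕ) {Λ : Set (ZMod p)} (h0 : (0 : ZMod p) ∈ Λ) (h1 : (1 : ZMod p) ∈ Λ)
    (hp : 2 ≤ p) {w ℓ d T : ℕ} (hw : 1 ≤ w) (A : Finset (Fin n → ZMod p))
    (F : Fin T → Finset (Fin n → ZMod p)) (hA : APFree k Λ A) (hF : ∀ i, Decided w ℓ d (F i))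
    (hAF : ∀ x, x ∈ A ↔ ∃ i, x ∈ F i) :
    (A.card : ℝ) ≤ T * (p ^ (n + 1) * (2 : ℝ) ^ (2 * ℓ + 7 - n / (2 * p * loss w ℓ d) : ℝ)) := by
  classical
  have : Fact (1 < p) := ⟨by omega⟩
  have key : ∀ i, ((F i).card : ℝ) ≤
      p ^ (n + 1) * (2 : ℝ) ^ (2 * ℓ + 7 - n / (2 * p * loss w ℓ d) : ℝ) := by
    intro i
    have h2 := bad_bound (s := n) (m := 1) hw (F i) (hF i) (fun j : Fin n => {j})
      (fun j j' hne => disjoint_singleton.2 hne) (fun j => (card_singleton _).le) (F i) (by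
        intro x hx
        refine ⟨hx, ?_⟩
        have h3 : (univ.filter fun j : Fin n => ∃ y, repl {j} x y ∉ F i) = univ := by
          rw [filter_eq_self]
          intro j _
          by_contra hcon
          push Not at hcon
          have h4 : (Pi.single j (1 : ZMod p) : Fin n → ZMod p) = 0 := by
            apply hA x
            · intro i'
              by_cases hi : i' = j
              · subst hi
                simpa using h1
              · rw [Pi.single_eq_of_ne hi]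
                exact h0
            · intro a _
              rw [hAF]
              refine ⟨i, ?_⟩
              have h5 : x + a • (Pi.single j (1 : ZMod p) : Fin n → ZMod p) =
                  repl {j} x (x + a • (Pi.single j (1 : ZMod p) : Fin n → ZMod p)) := by
                funext i'
                unfold repl
                by_cases hi : i' ∈ ({j} : Finset (Fin n))
                · rw [if_pos hi]
                · rw [if_neg hi]
                  rw [mem_singleton] at hi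
                  rw [Pi.add_apply, Pi.smul_apply, Pi.single_eq_of_ne hi, smul_zero, add_zero]
              rw [h5]
              exact hcon _
          have h6 := congrFun h4 j
          rw [Pi.single_eq_same] at h6
          exact one_ne_zero h6
        rw [h3, card_univ, Fintype.card_fin])
    have h3 : (((F i).card : ℕ) : ℝ) * 4 ^ (n / (4 * p ^ 1 * loss w ℓ d)) ≤
        2 ^ (2 * ℓ + 5) * ((p : ℝ) ^ (n + 1)) := by
      have h4 : ((((F i).card * 4 ^ (n / (4 * p ^ 1 * loss w ℓ d)) : ℕ)) : ℝ) ≤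
        ((2 ^ (2 * ℓ + 5) * (p ^ 1 * p ^ n) : ℕ) : ℝ) := by exact_mod_cast h2
      push_cast at h4
      calc _ ≤ _ := h4
        _ = _ := by ring
    have hL : (0 : ℝ) < loss w ℓ d := by exact_mod_cast loss_pos hw
    have hpR : (0 : ℝ) < p := by exact_mod_cast (by omega : 0 < p)
    have h4 : (n : ℝ) / (4 * p * loss w ℓ d) - 1 ≤ ((n / (4 * p ^ 1 * loss w ℓ d) : ℕ) : ℝ) := by
      have h5 := div_ge n (4 * p ^ 1 * loss w ℓ d) (by
        have := loss_pos (w := w) (ℓ := ℓ) (d := d) hw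
        positivity)
      have h6 : (((4 * p ^ 1 * loss w ℓ d : ℕ)) : ℝ) = 4 * p * loss w ℓ d := by
        push_cast
        ring
      rwa [h6] at h5
    have h5 := real_bound (a := (F i).card) (b := 2 * ℓ + 5) h3 (by positivity) h4
    refine h5.trans (le_of_eq ?_)
    congr 2
    push_cast
    field_simp
    ring
  have h2 : A ⊆ univ.biUnion F := by
    intro x hx
    obtain ⟨i, hi⟩ := (hAF x).1 hx
    exact mem_biUnion.2 ⟨i, mem_univ _, hi⟩
  calc (A.card : ℝ) ≤ ((univ.biUnion F).card : ℝ) := by exact_mod_cast card_le_card h2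
    _ ≤ ((∑ i, (F i).card : ℕ) : ℝ) := by exact_mod_cast card_biUnion_le
    _ = ∑ i, ((F i).card : ℝ) := by push_cast; rfl
    _ ≤ ∑ _i : Fin T, (p ^ (n + 1) * (2 : ℝ) ^ (2 * ℓ + 7 - n / (2 * p * loss w ℓ d) : ℝ)) :=
      sum_le_sum fun i _ => key i
    _ = _ := by rw [sum_const, card_univ, Fintype.card_fin, nsmul_eq_mul]

/-- **Progression-free subsets of a set decided by a circuit.** -/
theorem relative (k : ℕ) {Λ : Set (ZMod p)} (h0 : (0 : ZMod p) ∈ Λ) {w ℓ d m R : ℕ} (hw : 1 ≤ w)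
    (hR : ∀ A : Finset (Fin m → ZMod p), APFree k Λ A → A.card ≤ R)
    (S F : Finset (Fin n → ZMod p)) (hS : APFree k Λ S) (hF : Decided w ℓ d F) {ε : ℝ} (hε : 0 < ε)
    (hε1 : ε ≤ 1) :
    ((S ∩ F).card : ℝ) ≤ (1 + ε) * (R / p ^ m) * F.card + p ^ (m + n) *
      (2 : ℝ) ^ (2 * ℓ + 8 - ε * (n / m : ℕ) / (4 * p ^ m * loss w ℓ d) : ℝ) := by
  classical
  have hp : 0 < p := Nat.pos_of_ne_zero (NeZero.ne p)
  have hpR : (1 : ℝ) ≤ p := by exact_mod_cast hp
  have hpm : (1 : ℝ) ≤ p ^ m := one_le_pow₀ hpR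
  have hpm0 : (0 : ℝ) < p ^ m := by linarith
  have hL1 : 1 ≤ loss w ℓ d := loss_pos hw
  have hL : (1 : ℝ) ≤ loss w ℓ d := by exact_mod_cast hL1
  have hL0 : (0 : ℝ) < loss w ℓ d := by linarith
  set J := n / m with hJ
  obtain ⟨B, hBm, hB⟩ : ∃ B : Fin J → Finset (Fin n), (∀ j, (B j).card = m) ∧
    ∀ j j', j ≠ j' → Disjoint (B j) (B j') := exists_blocks n m
  set s := ⌊ε * J / 2⌋₊ with hs
  have hεJ : 0 ≤ ε * J / 2 := by positivity
  have hs1 : (s : ℝ) ≤ ε * J / 2 := Nat.floor_le hεJ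
  have hs2 : ε * J / 2 < s + 1 := Nat.lt_floor_add_one _
  set Bad : Finset (Fin n → ZMod p) :=
    F.filter fun x => s ≤ (univ.filter fun j => ∃ y, repl (B j) x y ∉ F).card with hBad
  -- the exceptional words
  have h1 := bad_bound (s := s) (m := m) hw F hF B hB (fun j => (hBm j).le) Bad (by
    intro x hx
    obtain ⟨h2, h3⟩ := mem_filter.1 hx
    exact ⟨h2, h3⟩)
  have h2 : (Bad.card : ℝ) ≤ p ^ (m + n) *
      (2 : ℝ) ^ (2 * ℓ + 8 - ε * J / (4 * p ^ m * loss w ℓ d) : ℝ) := by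
    have h3 : ((Bad.card : ℕ) : ℝ) * 4 ^ (s / (4 * p ^ m * loss w ℓ d)) ≤
        2 ^ (2 * ℓ + 5) * ((p : ℝ) ^ (m + n)) := by
      have h4 : (((Bad.card * 4 ^ (s / (4 * p ^ m * loss w ℓ d)) : ℕ)) : ℝ) ≤
        ((2 ^ (2 * ℓ + 5) * (p ^ m * p ^ n) : ℕ) : ℝ) := by exact_mod_cast h1
      push_cast at h4
      calc _ ≤ _ := h4
        _ = _ := by ring
    have h4 : ε * J / (8 * p ^ m * loss w ℓ d) - 3 / 2 ≤
        ((s / (4 * p ^ m * loss w ℓ d) : ℕ) : ℝ) := by
      have h5 := div_ge s (4 * p ^ m * loss w ℓ d) (by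
        have := Nat.pow_pos (n := m) hp
        positivity)
      have h6 : (((4 * p ^ m * loss w ℓ d : ℕ)) : ℝ) = 4 * p ^ m * loss w ℓ d := by
        push_cast
        ring
      rw [h6] at h5
      refine le_trans ?_ h5
      have h7 : (4 : ℝ) ≤ 4 * p ^ m * loss w ℓ d := by
        have := mul_le_mul hpm hL zero_le_one hpm0.le
        linarith
      have h8 : ε * J / (8 * p ^ m * loss w ℓ d) ≤ s / (4 * p ^ m * loss w ℓ d) + 1 / 2 := by
        have h9 : ε * J / (8 * p ^ m * loss w ℓ d) = (ε * J / 2) / (4 * p ^ m * loss w ℓ d) := by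
          field_simp
          ring
        rw [h9]
        have h10 : (ε * J / 2) / (4 * p ^ m * loss w ℓ d) ≤ (s + 1) / (4 * p ^ m * loss w ℓ d) := by
          gcongr
        have h11 : (1 : ℝ) / (4 * p ^ m * loss w ℓ d) ≤ 1 / 4 := by
          gcongr
        calc _ ≤ _ := h10
          _ = s / (4 * p ^ m * loss w ℓ d) + 1 / (4 * p ^ m * loss w ℓ d) := by ring
          _ ≤ _ := by linarith
      linarith
    refine (real_bound (a := Bad.card) (b := 2 * ℓ + 5) h3 (by positivity) h4).trans (le_of_eq ?_)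
    congr 2
    push_cast
    field_simp
    ring
  have hcov : ((S ∩ F).card : ℝ) ≤ (((S ∩ F) \ Bad).card : ℝ) + Bad.card := by
    have h3 : (S ∩ F).card ≤ ((S ∩ F) \ Bad).card + Bad.card := by
      refine (card_le_card ?_).trans (card_union_le ((S ∩ F) \ Bad) Bad)
      rw [sdiff_union_self_eq_union]
      exact subset_union_left
    exact_mod_cast h3
  have hFc : (0 : ℝ) ≤ F.card := Nat.cast_nonneg _
  have hRc : (0 : ℝ) ≤ R := Nat.cast_nonneg _
  by_cases hJ0 : J = 0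
  · have h3 : ((S ∩ F).card : ℝ) ≤ p ^ n := by
      have h4 : (S ∩ F).card ≤ p ^ n := by
        refine (card_le_univ _).trans (le_of_eq ?_)
        rw [Fintype.card_fun, ZMod.card, Fintype.card_fin]
      exact_mod_cast h4
    have h4 : (p : ℝ) ^ n ≤ p ^ (m + n) * (2 : ℝ) ^ (2 * ℓ + 8 - ε * J / (4 * p ^ m * loss w ℓ d) : ℝ) := by
      have h5 : (1 : ℝ) ≤ (2 : ℝ) ^ (2 * ℓ + 8 - ε * J / (4 * p ^ m * loss w ℓ d) : ℝ) := by
        apply Real.one_le_rpow (by norm_num)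
        rw [hJ0]
        simp only [Nat.cast_zero, mul_zero, zero_div, sub_zero]
        positivity
      calc (p : ℝ) ^ n ≤ p ^ (m + n) := pow_le_pow_right₀ hpR (by omega)
        _ = p ^ (m + n) * 1 := (mul_one _).symm
        _ ≤ _ := by gcongr
    have h5 : 0 ≤ (1 + ε) * (R / p ^ m) * (F.card : ℝ) := by positivity
    linarith
  · have hJ1 : (0 : ℝ) < J := by exact_mod_cast Nat.pos_of_ne_zero hJ0
    have h3 := assemble h0 hR B hBm S F hS s Bad (by
      intro x hx hx'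
      exact mem_filter.2 ⟨hx, hx'⟩)
    have hsJ : s ≤ J := by
      have : (s : ℝ) ≤ J := by nlinarith
      exact_mod_cast this
    have h4 : (((S ∩ F) \ Bad).card : ℝ) * ((J : ℝ) - s) * p ^ m ≤ J * (R * F.card) := by
      have h5 : ((((S ∩ F) \ Bad).card * (J - s) * p ^ m : ℕ) : ℝ) ≤ ((J * (R * F.card) : ℕ) : ℝ) := by
        exact_mod_cast h3
      push_cast [Nat.cast_sub hsJ] at h5
      exact h5
    set a : ℝ := (((S ∩ F) \ Bad).card : ℝ) with ha
    have ha0 : 0 ≤ a := Nat.cast_nonneg _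
    have h5 : a * (J * (1 - ε / 2)) * p ^ m ≤ J * (R * F.card) := by
      refine le_trans ?_ h4
      have : (J : ℝ) * (1 - ε / 2) ≤ J - s := by nlinarith
      gcongr
    have h6 : a * (1 - ε / 2) * p ^ m ≤ R * F.card := by
      have : J * (a * (1 - ε / 2) * p ^ m) ≤ (J : ℝ) * (R * F.card) := by linarith
      exact le_of_mul_le_mul_left this hJ1
    have h7 : a * p ^ m ≤ (1 + ε) * (R * F.card) := by
      have h8 : a * p ^ m ≤ (1 + ε) * (a * (1 - ε / 2) * p ^ m) := by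
        have h9 : (1 : ℝ) ≤ (1 + ε) * (1 - ε / 2) := by nlinarith
        have h10 : 0 ≤ a * p ^ m := by positivity
        nlinarith
      refine h8.trans ?_
      gcongr
    have h8 : a ≤ (1 + ε) * (R / p ^ m) * F.card := by
      rw [show (1 + ε) * ((R : ℝ) / p ^ m) * F.card = ((1 + ε) * (R * F.card)) / p ^ m by ring,
        le_div_iff₀ hpm0]
      exact h7
    linarith

open Pool.Agent.H602R3.DHJ in
/-- Szemerédi's theorem in `(ℤ/p)^n`, from the density Hales-Jewett theorem -/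
theorem dens (hp : 2 ≤ p) (k : ℕ) {Λ : Set (ZMod p)} (h0 : (0 : ZMod p) ∈ Λ)
    (h1 : (1 : ZMod p) ∈ Λ) {δ : ℝ} (hδ : 0 < δ) : ∃ m R : ℕ, 1 ≤ m ∧
      (∀ A : Finset (Fin m → ZMod p), APFree k Λ A → A.card ≤ R) ∧ (R : ℝ) ≤ δ * p ^ m := by
  classical
  have : Fact (1 < p) := ⟨by omega⟩
  have hD : D (ZMod p) := D_equiv (Fintype.equivFinOfCardEq (α := ZMod p) (n := p - 1 + 1) (by
    rw [ZMod.card]
    omega)).symm (dhj (p - 1))
  obtain ⟨N, hN⟩ := hD δ hδ
  have hpm : (0 : ℝ) < p ^ (N + 1) := by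
    have : (0 : ℝ) < p := by exact_mod_cast (by omega : 0 < p)
    positivity
  refine ⟨N + 1, ⌊δ * p ^ (N + 1)⌋₊, by omega, fun A hA => ?_, Nat.floor_le (by positivity)⟩
  apply Nat.le_floor
  have hfree : LFr (A : Set (Fin (N + 1) → ZMod p)) := by
    intro V hV
    by_contra hcon
    push Not at hcon
    obtain ⟨i, hi⟩ := hV ()
    have h2 : (fun i => Sum.elim (fun _ => (0 : ZMod p)) (fun _ => 1) (V i)) = 0 := by
      apply hA (ap V (fun _ => 0))
      · intro i
        rcases V i with a | a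
        · exact h0
        · exact h1
      · intro j _
        have h3 : ap V (fun _ => (0 : ZMod p)) + j • (fun i =>
            Sum.elim (fun _ => (0 : ZMod p)) (fun _ => 1) (V i)) = ap V (fun _ => (j : ZMod p)) := by
          funext i
          rw [Pi.add_apply, Pi.smul_apply]
          unfold ap
          rcases V i with a | a
          · simp
          · simp
        rw [h3]
        exact_mod_cast hcon _
    have h3 := congrFun h2 i
    rw [hi] at h3
    exact one_ne_zero h3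
  have h2 := D_up hN (Fin (N + 1)) (by rw [Fintype.card_fin]; omega) _ hfree
  have h3 : dn (A : Set (Fin (N + 1) → ZMod p)) = (A.card : ℝ) / p ^ (N + 1) := by
    unfold dn av
    congr 1
    · rw [← sum_subset (subset_univ A)]
      · rw [sum_congr rfl fun x hx => Set.indicator_of_mem (by simpa using hx) _]
        simp
      · intro x _ hx
        rw [Set.indicator_of_notMem]
        simpa using hx
    · rw [Fintype.card_fun, ZMod.card, Fintype.card_fin]
      push_cast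
      rfl
  rw [h3, div_lt_iff₀ hpm] at h2
  exact h2.le

/-- **The relative Szemerédi theorem for the sets decided by circuits of constant depth.** -/
theorem relative_dens (hp : 2 ≤ p) (k : ℕ) {Λ : Set (ZMod p)} (h0 : (0 : ZMod p) ∈ Λ)
    (h1 : (1 : ZMod p) ∈ Λ) {δ : ℝ} (hδ : 0 < δ) : ∃ c : ℝ, 0 < c ∧ ∀ n w ℓ d : ℕ, 1 ≤ w →
      ∀ S F : Finset (Fin n → ZMod p), APFree k Λ S → Decided w ℓ d F →
        ((S ∩ F).card : ℝ) ≤ δ * F.card +
          p ^ n * (2 : ℝ) ^ (2 * ℓ + 1 / c - c * n / loss w ℓ d : ℝ) := by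
  obtain ⟨m, R, hm, hR, hRδ⟩ := dens hp k h0 h1 (δ := δ / 2) (by positivity)
  have hpR : (2 : ℝ) ≤ p := by exact_mod_cast hp
  have hmR : (1 : ℝ) ≤ m := by exact_mod_cast hm
  have hpm : (2 : ℝ) ≤ p ^ m := by
    calc (2 : ℝ) ≤ p := hpR
      _ = p ^ 1 := (pow_one _).symm
      _ ≤ p ^ m := pow_le_pow_right₀ (by linarith) hm
  have hpm0 : (0 : ℝ) < p ^ m := by linarith
  refine ⟨1 / (16 * m * p ^ m), by positivity, fun n w ℓ d hw S F hS hF => ?_⟩
  have hL1 : 1 ≤ loss w ℓ d := loss_pos hw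
  have hL : (1 : ℝ) ≤ loss w ℓ d := by exact_mod_cast hL1
  have hL0 : (0 : ℝ) < loss w ℓ d := by linarith
  have h2 := relative k h0 hw hR S F hS hF one_pos le_rfl
  have hFc : (0 : ℝ) ≤ F.card := Nat.cast_nonneg _
  have h3 : (1 + 1) * ((R : ℝ) / p ^ m) * F.card ≤ δ * F.card := by
    have : (R : ℝ) / p ^ m ≤ δ / 2 := by
      rw [div_le_iff₀ hpm0]
      exact hRδ
    have h4 : (1 + 1) * ((R : ℝ) / p ^ m) ≤ δ := by linarith
    gcongr
  have h4 : (p : ℝ) ^ (m + n) * (2 : ℝ) ^ (2 * ℓ + 8 - 1 * (n / m : ℕ) / (4 * p ^ m * loss w ℓ d) : ℝ) ≤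
      p ^ n * (2 : ℝ) ^ (2 * ℓ + 1 / (1 / (16 * m * p ^ m)) - 1 / (16 * m * p ^ m) * n / loss w ℓ d : ℝ) := by
    have h5 : (p : ℝ) ^ m ≤ (2 : ℝ) ^ ((p : ℝ) ^ m) := by
      have h6 : p ^ m < 2 ^ (p ^ m) := Nat.lt_two_pow_self
      have h7 : ((p ^ m : ℕ) : ℝ) < ((2 ^ (p ^ m) : ℕ) : ℝ) := by exact_mod_cast h6
      push_cast at h7
      rw [show ((p : ℝ) ^ m) = ((p ^ m : ℕ) : ℝ) by push_cast; rfl, Real.rpow_natCast]
      push_cast
      exact h7.le
    rw [pow_add, mul_comm ((p : ℝ) ^ m), mul_assoc]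
    refine mul_le_mul_of_nonneg_left ?_ (by positivity)
    refine (mul_le_mul_of_nonneg_right h5 (by positivity)).trans ?_
    rw [← Real.rpow_add (by norm_num)]
    refine Real.rpow_le_rpow_of_exponent_le (by norm_num) ?_
    have h6 := div_ge n m hm
    have h7 : (n : ℝ) / (4 * m * p ^ m * loss w ℓ d) - 1 / 4 ≤
        1 * (n / m : ℕ) / (4 * p ^ m * loss w ℓ d) := by
      have h8 : ((n : ℝ) / m - 1) / (4 * p ^ m * loss w ℓ d) ≤
          1 * (n / m : ℕ) / (4 * p ^ m * loss w ℓ d) := by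
        rw [one_mul]
        gcongr
      refine le_trans ?_ h8
      have h9 : ((n : ℝ) / m - 1) / (4 * p ^ m * loss w ℓ d) =
          (n : ℝ) / (4 * m * p ^ m * loss w ℓ d) - 1 / (4 * p ^ m * loss w ℓ d) := by
        field_simp
      rw [h9]
      have h10 : (1 : ℝ) / (4 * p ^ m * loss w ℓ d) ≤ 1 / 4 := by
        have h11 : (4 : ℝ) ≤ 4 * p ^ m * loss w ℓ d := by nlinarith
        gcongr
      linarith
    have h8 : 1 / (16 * m * (p : ℝ) ^ m) * n / loss w ℓ d ≤ n / (4 * m * p ^ m * loss w ℓ d) := by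
      have h9 : 1 / (16 * m * (p : ℝ) ^ m) * n / loss w ℓ d = (n / (4 * m * p ^ m * loss w ℓ d)) / 4 := by
        field_simp
        ring
      rw [h9]
      have h10 : (0 : ℝ) ≤ n / (4 * m * p ^ m * loss w ℓ d) := by positivity
      linarith
    have h9 : (1 : ℝ) / (1 / (16 * m * p ^ m)) = 16 * m * p ^ m := by
      rw [one_div_one_div]
    rw [h9]
    have h10 : 16 * (p : ℝ) ^ m ≤ 16 * m * p ^ m := by
      have := mul_le_mul_of_nonneg_right hmR hpm0.le
      linarith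
    linarith
  linarith

end Pool.Agent.X222.AP
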