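import Pool.Agent.X222.AP.Prog

set_option autoImplicit false

/-!
# Branching programs which read the word in an arbitrary order
-/

namespace Pool.Agent.X222.AP

open Finset Function

/-- the number of sets with few elements -/
theorem card_small_sets (K D : ℕ) :
    ((range K).powerset.filter fun s => s.card ≤ D).card ≤ (K + 1) ^ D := by
  classical
  have h1 : ((range K).powerset.filter fun s => s.card ≤ D) ⊆
      (univ : Finset (Fin D → Option (Fin K))).image fun f =>
        (range K).filter fun u => ∃ a, ∃ h : u < K, f a = some ⟨u, h⟩ := by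
    intro s hs
    obtain ⟨h1, h2⟩ := mem_filter.1 hs
    have h3 : ∀ u ∈ s, u < K := fun u hu => mem_range.1 (mem_powerset.1 h1 hu)
    rw [mem_image]
    refine ⟨fun a => if h : (a : ℕ) < s.card then
      some ⟨(s.equivFin.symm ⟨a, h⟩ : s).1, h3 _ (s.equivFin.symm ⟨a, h⟩ : s).2⟩ else none,
      mem_univ _, ?_⟩
    ext u
    rw [mem_filter, mem_range]
    constructor
    · rintro ⟨hu, a, h, ha⟩
      beta_reduce at ha
      by_cases hc : (a : ℕ) < s.card
      · rw [dif_pos hc] at ha
        have h4 := congrArg Fin.val (Option.some.inj ha)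
        simp only at h4
        rw [← h4]
        exact (s.equivFin.symm ⟨a, hc⟩ : s).2
      · rw [dif_neg hc] at ha
        cases ha
    · intro hu
      refine ⟨h3 u hu, ⟨(s.equivFin ⟨u, hu⟩ : ℕ), ?_⟩, h3 u hu, ?_⟩
      · exact lt_of_lt_of_le (s.equivFin ⟨u, hu⟩).2 h2
      · have h4 : ((s.equivFin ⟨u, hu⟩ : Fin s.card) : ℕ) < s.card := (s.equivFin ⟨u, hu⟩).2
        beta_reduce
        rw [dif_pos h4]
        congr 1
        apply Fin.ext
        show (s.equivFin.symm ⟨(s.equivFin ⟨u, hu⟩ : ℕ), h4⟩ : s).1 = u
        have h5 : (⟨(s.equivFin ⟨u, hu⟩ : ℕ), h4⟩ : Fin s.card) = s.equivFin ⟨u, hu⟩ := rfl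
        rw [h5, Equiv.symm_apply_apply]
  refine (card_le_card h1).trans (card_image_le.trans (le_of_eq ?_))
  rw [card_univ, Fintype.card_fun, Fintype.card_option, Fintype.card_fin, Fintype.card_fin]

/-- the number of residues -/
theorem card_mod (n K u : ℕ) :
    (univ.filter fun v : Fin n => (v : ℕ) % K = u).card ≤ n / K + 1 := by
  refine (card_le_card_of_injOn (fun v : Fin n => (v : ℕ) / K) (t := range (n / K + 1)) ?_ ?_).trans
    (le_of_eq (card_range _))
  · intro v _
    exact mem_coe.2 (mem_range.2 (Nat.lt_succ_of_le (Nat.div_le_div_right v.2.le)))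
  · intro v hv v' hv' h
    have h1 := (mem_filter.1 (mem_coe.1 hv)).2
    have h2 := (mem_filter.1 (mem_coe.1 hv')).2
    have h3 : (v : ℕ) / K = v' / K := h
    apply Fin.ext
    rw [← Nat.div_add_mod (v : ℕ) K, ← Nat.div_add_mod (v' : ℕ) K, h1, h2, h3]

theorem card_interval (w len u L : ℕ) (hlen : 0 < len) :
    (((range L) ×ˢ (univ : Finset (Fin w))).filter fun ta => ta.1 / len = u).card ≤ w * len := by
  have h1 : (((range L) ×ˢ (univ : Finset (Fin w))).filter fun ta => ta.1 / len = u) ⊆
      (Ico (u * len) (u * len + len)) ×ˢ (univ : Finset (Fin w)) := by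
    rintro ⟨t, a⟩ h
    have h2 := (mem_filter.1 h).2
    rw [mem_product, mem_Ico]
    have h3 := Nat.div_add_mod t len
    have h4 := Nat.mod_lt t hlen
    have h5 : t / len = u := h2
    rw [h5, mul_comm] at h3
    exact ⟨⟨by show u * len ≤ t; omega, by show t < u * len + len; omega⟩, mem_univ _⟩
  refine (card_le_card h1).trans (le_of_eq ?_)
  rw [card_product, Nat.card_Ico, card_univ, Fintype.card_fin, Nat.add_sub_cancel_left, mul_comm]

section
variable {n w : ℕ}

/-- the intervals of time in which a coordinate is read -/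
def tms (query : ℕ → Fin w → Fin n) (L len : ℕ) (v : Fin n) : Finset ℕ :=
  (((range L) ×ˢ (univ : Finset (Fin w))).filter fun ta => query ta.1 ta.2 = v).image
    fun ta => ta.1 / len

open Classical in
/-- the same, with one interval for the coordinates which are never read -/
noncomputable def tms' (query : ℕ → Fin w → Fin n) (L len K : ℕ) (v : Fin n) : Finset ℕ :=
  if tms query L len v = ∅ then {(v : ℕ) % K} else tms query L len v

/-- how often a coordinate is read -/
def dg (query : ℕ → Fin w → Fin n) (L : ℕ) (v : Fin n) : ℕ :=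
  (((range L) ×ˢ (univ : Finset (Fin w))).filter fun ta => query ta.1 ta.2 = v).card

theorem sum_dg (query : ℕ → Fin w → Fin n) (L : ℕ) : ∑ v, dg query L v = L * w := by
  unfold dg
  rw [← card_eq_sum_card_fiberwise (f := fun ta : ℕ × Fin w => query ta.1 ta.2)
    (fun _ _ => mem_univ _), card_product, card_range, card_univ, Fintype.card_fin]

theorem tms_card (query : ℕ → Fin w → Fin n) (L len : ℕ) (v : Fin n) :
    (tms query L len v).card ≤ dg query L v := card_image_le

theorem tms'_card (query : ℕ → Fin w → Fin n) (L len K : ℕ) (v : Fin n) {D : ℕ} (hD : 1 ≤ D)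
    (hv : dg query L v ≤ D) : (tms' query L len K v).card ≤ D := by
  unfold tms'
  split_ifs
  · rw [card_singleton]
    exact hD
  · exact (tms_card query L len v).trans hv

theorem tms'_nonempty (query : ℕ → Fin w → Fin n) (L len K : ℕ) (v : Fin n) :
    (tms' query L len K v).Nonempty := by
  unfold tms'
  split_ifs with h
  · exact singleton_nonempty _
  · exact nonempty_iff_ne_empty.2 h

theorem tms'_sub (query : ℕ → Fin w → Fin n) {L len K : ℕ} (hK : 0 < K) (hL : L ≤ len * K)
    (v : Fin n) : tms' query L len K v ⊆ range K := by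
  unfold tms'
  split_ifs
  · rw [singleton_subset_iff, mem_range]
    exact Nat.mod_lt _ hK
  · intro u hu
    unfold tms at hu
    obtain ⟨⟨t, a⟩, h1, rfl⟩ := mem_image.1 hu
    have h2 := mem_range.1 (mem_product.1 (mem_filter.1 h1).1).1
    exact mem_range.2 (Nat.div_lt_of_lt_mul (lt_of_lt_of_le h2 hL))

theorem tms'_meet (query : ℕ → Fin w → Fin n) {L len K : ℕ} (hK : 0 < K) (hlen : 0 < len) (u : ℕ) :
    (univ.filter fun v : Fin n => u ∈ tms' query L len K v).card ≤ w * len + (n / K + 1) := by
  classical
  have h1 : (univ.filter fun v : Fin n => u ∈ tms' query L len K v) ⊆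
      ((((range L) ×ˢ (univ : Finset (Fin w))).filter fun ta => ta.1 / len = u).image
        fun ta => query ta.1 ta.2) ∪ (univ.filter fun v : Fin n => (v : ℕ) % K = u) := by
    intro v hv
    have h2 := (mem_filter.1 hv).2
    unfold tms' at h2
    rw [mem_union]
    split_ifs at h2 with h3
    · right
      exact mem_filter.2 ⟨mem_univ _, (mem_singleton.1 h2).symm⟩
    · left
      unfold tms at h2
      obtain ⟨⟨t, a⟩, h4, h5⟩ := mem_image.1 h2
      obtain ⟨h6, h7⟩ := mem_filter.1 h4
      exact mem_image.2 ⟨(t, a), mem_filter.2 ⟨h6, h5⟩, h7⟩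
  refine (card_le_card h1).trans ((card_union_le _ _).trans (Nat.add_le_add ?_ (card_mod n K u)))
  exact card_image_le.trans (card_interval w len u L hlen)

/-- the choice of the blocks -/
theorem order_blocks (query : ℕ → Fin w → Fin n) {L q m J K : ℕ} (hw : 1 ≤ w) (hq : 1 ≤ q)
    (hJ : 1 ≤ J) (hL : L ≤ q * n) (hK : K = 4 * (2 * w * q) * (w * q + w + 2) * J)
    (hn : 4 * (m * (K + 1) ^ (2 * w * q)) ≤ n) (hm : 1 ≤ m) :
    ∃ (B : Fin J → Finset (Fin n)) (ty : Fin J → Finset ℕ), (∀ j, (B j).card = m) ∧
      (∀ j, (ty j).card ≤ 2 * w * q) ∧ (∀ j j', j ≠ j' → Disjoint (ty j) (ty j')) ∧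
      ∀ j, ∀ v ∈ B j, tms' query L (L / K + 1) K v = ty j := by
  classical
  set D := 2 * w * q with hD
  have hD1 : 1 ≤ D := by
    have : 0 < 2 * w * q := by positivity
    omega
  set len := L / K + 1 with hlen
  have hK0 : 0 < K := by rw [hK]; positivity
  have hLK : L ≤ len * K := by
    rw [hlen, add_mul, one_mul]
    have h1 := Nat.div_add_mod L K
    have h2 := Nat.mod_lt L hK0
    rw [mul_comm] at h1
    omega
  have hKn : K ≤ n := by
    have h1 : K + 1 ≤ (K + 1) ^ D := Nat.le_self_pow (by omega) _
    have h2 : (K + 1) ^ D ≤ m * (K + 1) ^ D := Nat.le_mul_of_pos_left _ hm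
    omega
  set typ := tms' query L len K with htyp
  -- good coordinates
  set G := univ.filter fun v : Fin n => dg query L v ≤ D with hG
  have hGcard : n ≤ 2 * G.card := by
    have h1 : (univ.filter fun v : Fin n => ¬ dg query L v ≤ D).card * D ≤ L * w := by
      rw [← sum_dg query L, ← smul_eq_mul, ← sum_const]
      calc ∑ _v ∈ univ.filter (fun v : Fin n => ¬ dg query L v ≤ D), D
          ≤ ∑ v ∈ univ.filter (fun v : Fin n => ¬ dg query L v ≤ D), dg query L v :=
            sum_le_sum fun v hv => (not_le.1 (mem_filter.1 hv).2).le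
        _ ≤ ∑ v, dg query L v := sum_le_sum_of_subset (subset_univ _)
    have h2 : G.card + (univ.filter fun v : Fin n => ¬ dg query L v ≤ D).card = n := by
      rw [hG, card_filter_add_card_filter_not, card_univ, Fintype.card_fin]
    set b := (univ.filter fun v : Fin n => ¬ dg query L v ≤ D).card with hb
    have h3 : w * q * (2 * b) ≤ w * q * n := by
      calc w * q * (2 * b) = b * D := by rw [hD]; ring
        _ ≤ L * w := h1
        _ ≤ q * n * w := Nat.mul_le_mul_right w hL
        _ = w * q * n := by ring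
    have h4 : 2 * b ≤ n := Nat.le_of_mul_le_mul_left h3 (by positivity)
    omega
  -- rich types
  set rich : Finset ℕ → Prop := fun s => m ≤ (G.filter fun v => typ v = s).card with hrich
  set G' := G.filter fun v => rich (typ v) with hG'
  have hG'card : n ≤ 4 * G'.card := by
    have h1 : G'.card + (G.filter fun v => ¬ rich (typ v)).card = G.card := by
      rw [hG', card_filter_add_card_filter_not]
    set TT := (range K).powerset.filter fun s => s.card ≤ D with hTT
    have h2 : (G.filter fun v => ¬ rich (typ v)).card ≤ (K + 1) ^ D * m := by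
      have h3 : ∀ v ∈ G.filter fun v => ¬ rich (typ v), typ v ∈ TT := by
        intro v hv
        rw [hTT, mem_filter, mem_powerset]
        exact ⟨tms'_sub query hK0 hLK v, tms'_card query L len K v hD1
          (mem_filter.1 (mem_filter.1 hv).1).2⟩
      rw [card_eq_sum_card_fiberwise h3]
      refine (sum_le_card_nsmul TT _ m ?_).trans ?_
      · intro s _
        by_cases hs : rich s
        · have : (filter (fun v => typ v = s) (G.filter fun v => ¬ rich (typ v))) = ∅ := by
            apply filter_eq_empty_iff.2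
            intro v hv hvs
            exact (mem_filter.1 hv).2 (hvs ▸ hs)
          rw [this, card_empty]
          exact Nat.zero_le _
        · refine le_trans (card_le_card ?_) (not_le.1 hs).le
          exact filter_subset_filter _ (filter_subset _ _)
      · rw [smul_eq_mul]
        exact Nat.mul_le_mul_right m (card_small_sets K D)
    have h4 : 4 * ((K + 1) ^ D * m) ≤ n := by
      rw [mul_comm ((K + 1) ^ D)]
      exact hn
    omega
  -- a maximal family of disjoint rich types
  set FF := ((range K).powerset.powerset).filter fun 𝒯 : Finset (Finset ℕ) =>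
    (∀ s ∈ 𝒯, rich s ∧ s.card ≤ D) ∧ ∀ s ∈ 𝒯, ∀ s' ∈ 𝒯, s ≠ s' → Disjoint s s' with hFF
  have hFFne : FF.Nonempty := ⟨∅, by
    rw [hFF, mem_filter]
    exact ⟨mem_powerset.2 (empty_subset _), fun s hs => absurd hs (notMem_empty _),
      fun s hs => absurd hs (notMem_empty _)⟩⟩
  obtain ⟨𝒯, h𝒯, hmax⟩ := exists_max_image FF card hFFne
  obtain ⟨h𝒯0, h𝒯1, h𝒯2⟩ := mem_filter.1 h𝒯
  have hmany : J ≤ 𝒯.card := by
    by_contra hcon
    push Not at hcon
    have hmeet : ∀ v ∈ G', ∃ u ∈ 𝒯.biUnion id, u ∈ typ v := by
      intro v hv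
      by_contra hno
      push Not at hno
      obtain ⟨hv1, hv2⟩ := mem_filter.1 hv
      have hdis : ∀ s ∈ 𝒯, Disjoint (typ v) s := by
        intro s hs
        rw [Finset.disjoint_left]
        intro u hu hus
        exact hno u (mem_biUnion.2 ⟨s, hs, hus⟩) hu
      have hnot : typ v ∉ 𝒯 := by
        intro h
        obtain ⟨u, hu⟩ := tms'_nonempty query L len K v
        exact (Finset.disjoint_left.1 (hdis _ h)) hu hu
      have hins : insert (typ v) 𝒯 ∈ FF := by
        rw [hFF, mem_filter]
        refine ⟨?_, ?_, ?_⟩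
        · rw [mem_powerset] at h𝒯0 ⊢
          exact insert_subset (mem_powerset.2 (tms'_sub query hK0 hLK v)) h𝒯0
        · intro s hs
          rcases mem_insert.1 hs with rfl | hs
          · exact ⟨hv2, tms'_card query L len K v hD1 (mem_filter.1 hv1).2⟩
          · exact h𝒯1 s hs
        · intro s hs s' hs' hne
          rcases mem_insert.1 hs with rfl | hs
          · rcases mem_insert.1 hs' with rfl | hs'
            · exact absurd rfl hne
            · exact hdis s' hs'
          · rcases mem_insert.1 hs' with rfl | hs'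
            · exact (hdis s hs).symm
            · exact h𝒯2 s hs s' hs' hne
      have := hmax _ hins
      rw [card_insert_of_notMem hnot] at this
      omega
    have h1 : G'.card ≤ (𝒯.biUnion id).card * (w * len + (n / K + 1)) := by
      have h2 : G' ⊆ (𝒯.biUnion id).biUnion fun u => univ.filter fun v : Fin n => u ∈ typ v := by
        intro v hv
        obtain ⟨u, hu, huv⟩ := hmeet v hv
        exact mem_biUnion.2 ⟨u, hu, mem_filter.2 ⟨mem_univ _, huv⟩⟩
      refine (card_le_card h2).trans (card_biUnion_le.trans ?_)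
      rw [← smul_eq_mul, ← sum_const]
      exact sum_le_sum fun u _ => tms'_meet query hK0 (Nat.succ_pos _) u
    have h2 : (𝒯.biUnion id).card ≤ 𝒯.card * D :=
      card_biUnion_le_card_mul _ _ _ fun s hs => (h𝒯1 s hs).2
    have h3 : n ≤ 4 * ((J - 1) * D * (w * len + (n / K + 1))) := by
      refine hG'card.trans (Nat.mul_le_mul_left 4 (h1.trans (Nat.mul_le_mul_right _ (h2.trans ?_))))
      exact Nat.mul_le_mul_right D (by omega)
    have h4 : 4 * (J * D * (w * len + (n / K + 1))) ≤ n := by
      have h5 : (w * q + w + 2) * (4 * (J * D * (w * len + (n / K + 1)))) ≤ (w * q + w + 2) * n := by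
        have e : (w * q + w + 2) * (4 * (J * D * (w * len + (n / K + 1)))) =
            w * (K * (L / K)) + w * K + K * (n / K) + K := by
          rw [hlen, hK]
          ring
        rw [e]
        have h6 : K * (L / K) ≤ q * n := (Nat.mul_div_le L K).trans hL
        have h7 : K * (n / K) ≤ n := Nat.mul_div_le n K
        have h8 : w * (K * (L / K)) ≤ w * (q * n) := Nat.mul_le_mul_left w h6
        have h9 : w * K ≤ w * n := Nat.mul_le_mul_left w hKn
        calc w * (K * (L / K)) + w * K + K * (n / K) + K ≤ w * (q * n) + w * n + n + n := by omega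
          _ = _ := by ring
      exact Nat.le_of_mul_le_mul_left h5 (by positivity)
    have h5 : 4 * ((J - 1) * D * (w * len + (n / K + 1))) < 4 * (J * D * (w * len + (n / K + 1))) := by
      have h6 : 0 < w * len + (n / K + 1) := by positivity
      have h7 : (J - 1) * D < J * D := Nat.mul_lt_mul_of_pos_right (by omega) (by omega)
      exact Nat.mul_lt_mul_of_pos_left (Nat.mul_lt_mul_of_pos_right h7 h6) (by norm_num)
    omega
  -- the blocks
  obtain ⟨𝒯', h𝒯'sub, h𝒯'card⟩ := exists_subset_card_eq hmany
  let e : Fin J ≃ 𝒯' := (𝒯'.equivFinOfCardEq h𝒯'card).symm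
  have hrichj : ∀ j : Fin J, rich (e j).1 := fun j => (h𝒯1 _ (h𝒯'sub (e j).2)).1
  choose B hB1 hB2 using fun j => exists_subset_card_eq (hrichj j)
  refine ⟨B, fun j => (e j).1, hB2, fun j => (h𝒯1 _ (h𝒯'sub (e j).2)).2, ?_, ?_⟩
  · intro j j' hne
    refine h𝒯2 _ (h𝒯'sub (e j).2) _ (h𝒯'sub (e j').2) fun h => hne ?_
    exact e.injective (Subtype.ext h)
  · intro j v hv
    exact (mem_filter.1 (hB1 j hv)).2

end

section
variable {p n w : ℕ} [NeZero p] {J m R k : ℕ} {Λ : Set (ZMod p)}

/-- **Programs of linear length which read the word in any order.** -/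
theorem order_bound (h0 : (0 : ZMod p) ∈ Λ)
    (hR : ∀ A : Finset (Fin m → ZMod p), APFree k Λ A → A.card ≤ R) (hm : 1 ≤ m) {q : ℕ}
    (hw : 1 ≤ w) (hq : 1 ≤ q) (M : Program p n w) (hL : M.levels ≤ q * n)
    (hn : J = 0 ∨ 4 * (m * (4 * (2 * w * q) * (w * q + w + 2) * J + 1) ^ (2 * w * q)) ≤ n)
    (S F : Finset (Fin n → ZMod p)) (hS : APFree k Λ S) (hF : ∀ x, x ∈ F ↔ M.Accepts x) :
    ((S ∩ F).card : ℝ) ≤ 32 * ((2 ^ (w * w * (2 * w * q)) : ℕ) : ℝ) * (R / p ^ m) * F.card +
      p ^ n / 2 ^ J := by
  classical
  by_cases hJ : J = 0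
  · rw [hJ, pow_zero, div_one]
    have h3 : ((S ∩ F).card : ℝ) ≤ p ^ n := by
      have h4 : (S ∩ F).card ≤ p ^ n := by
        refine (card_le_univ _).trans (le_of_eq ?_)
        rw [Fintype.card_fun, ZMod.card, Fintype.card_fin]
      exact_mod_cast h4
    have : (0 : ℝ) ≤ 32 * ((2 ^ (w * w * (2 * w * q)) : ℕ) : ℝ) * (R / p ^ m) * F.card := by
      positivity
    linarith
  · have hn' := hn.resolve_left hJ
    obtain ⟨K, hK⟩ : ∃ K, K = 4 * (2 * w * q) * (w * q + w + 2) * J := ⟨_, rfl⟩
    rw [← hK] at hn'
    obtain ⟨B, ty, hB1, hty1, hty2, hB2⟩ := order_blocks M.query (m := m) hw hq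
      (Nat.one_le_iff_ne_zero.2 hJ) hL hK hn' hm
    have hK0 : 0 < K := by
      rw [hK]
      have : 0 < J := Nat.pos_of_ne_zero hJ
      positivity
    set len := M.levels / K + 1 with hlen
    have hLK : M.levels ≤ K * len := by
      rw [hlen, mul_add, mul_one]
      have h1 := Nat.div_add_mod M.levels K
      have h2 := Nat.mod_lt M.levels hK0
      omega
    let own : ℕ → Option (Fin J) := fun i => if h : ∃ j, i ∈ ty j then some h.choose else none
    have hownty : ∀ i j, i ∈ ty j → own i = some j := by
      intro i j hij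
      have h : ∃ j, i ∈ ty j := ⟨j, hij⟩
      show (if h : ∃ j, i ∈ ty j then some h.choose else none) = some j
      rw [dif_pos h]
      congr 1
      by_contra hne
      exact (Finset.disjoint_left.1 (hty2 _ _ hne)) h.choose_spec hij
    refine prog_bound h0 hR B hB1 ?_ M K (fun i => min (i * len) M.levels) ?_ ?_ ?_ own ?_ ?_ S F hS hF
    · intro j j' hne
      rw [Finset.disjoint_left]
      intro v hv hv'
      have h1 := hB2 j v hv
      have h2 := hB2 j' v hv'
      have h3 := hty2 j j' hne
      rw [← h1, ← h2] at h3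
      obtain ⟨u, hu⟩ := tms'_nonempty M.query M.levels len K v
      exact (Finset.disjoint_left.1 h3) hu hu
    · intro i _
      exact min_le_min_right _ (Nat.mul_le_mul_right len (Nat.le_succ i))
    · show min (0 * len) M.levels = 0
      rw [zero_mul]
      exact Nat.min_eq_left (Nat.zero_le _)
    · exact Nat.min_eq_right hLK
    · intro i _ t ht ht' a j hmem
      have h1 : t < M.levels := lt_of_lt_of_le ht' (min_le_right _ _)
      have h2 : t < (i + 1) * len := lt_of_lt_of_le ht' (min_le_left _ _)
      have h3 : i * len ≤ t := by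
        have h4 : min (i * len) M.levels ≤ t := ht
        rcases min_le_iff.1 h4 with h | h
        · exact h
        · omega
      have h4 : t / len = i := Nat.div_eq_of_lt_le h3 h2
      apply hownty
      rw [← hB2 j _ hmem]
      have h5 : i ∈ tms M.query M.levels len (M.query t a) := by
        unfold tms
        refine mem_image.2 ⟨(t, a), mem_filter.2 ⟨mem_product.2 ⟨mem_range.2 h1, mem_univ _⟩, rfl⟩, h4⟩
      unfold tms'
      rw [if_neg (nonempty_iff_ne_empty.1 ⟨i, h5⟩)]
      exact h5
    · intro j
      refine le_trans (card_le_card ?_) (hty1 j)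
      intro i hi
      have h1 : (if h : ∃ j, i ∈ ty j then some h.choose else none) = some j := (mem_filter.1 hi).2
      by_cases h : ∃ j, i ∈ ty j
      · rw [dif_pos h] at h1
        have h2 := Option.some.inj h1
        rw [← h2]
        exact h.choose_spec
      · rw [dif_neg h] at h1
        cases h1

end

end Pool.Agent.X222.AP
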