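import Pool.Agent.X222.AP.Main
import Pool.Agent.Y347.CO.Lines

set_option autoImplicit false

/-!
# Progression-free sets decided by polynomials in circuits of constant depth
-/

namespace Pool.Agent.X222.AP

open Finset Function H568R2 Pool.Agent.TH163.AC3 Pool.Agent.Y603.MS Pool.Agent.Y347.CO

section top
variable {n : ℕ} {K : Type} [Field K]

/-- the sign of a point of the subcube -/
noncomputable def sg (K : Type) [Field K] (ρ : Restr (Fin n)) (y : Fin n → ZMod 2) : K :=
  ∏ i ∈ freeS ρ, (if y i = 1 then (-1 : K) else 1)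

theorem sg_flip (ρ : Restr (Fin n)) {i : Fin n} (hi : i ∈ freeS ρ) (y : Fin n → ZMod 2) :
    sg K ρ (y + Pi.single i 1) = - sg K ρ y := by
  unfold sg
  rw [← mul_prod_erase _ _ hi, ← mul_prod_erase (freeS ρ) (fun i => if y i = 1 then (-1 : K) else 1) hi]
  have h1 : ∏ j ∈ (freeS ρ).erase i, (if (y + Pi.single i 1 : Fin n → ZMod 2) j = 1 then (-1 : K) else 1) =
      ∏ j ∈ (freeS ρ).erase i, (if y j = 1 then (-1 : K) else 1) := by
    apply prod_congr rfl
    intro j hj
    rw [Pi.add_apply, Pi.single_eq_of_ne (ne_of_mem_erase hj), add_zero]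
  rw [h1, Pi.add_apply, Pi.single_eq_same]
  rcases zmod2_cases (y i) with h | h
  · rw [h, if_pos (by decide), if_neg (by decide)]
    ring
  · rw [h, if_neg (by decide), if_pos rfl]
    ring

theorem chi_flip (ρ : Restr (Fin n)) {i : Fin n} (hi : i ∈ freeS ρ) {s : Finset (Fin n)} (his : i ∉ s)
    (y : Fin n → ZMod 2) : chi K ρ s (y + Pi.single i 1) = chi K ρ s y := by
  have hρ : ρ i = none := (mem_filter.1 hi).2
  unfold chi
  have h1 : InC ρ (bits2 (y + Pi.single i 1)) ↔ InC ρ (bits2 y) := by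
    unfold InC bits2
    apply forall_congr'
    intro j
    apply forall_congr'
    intro b
    by_cases hj : j = i
    · rw [hj, hρ]
      simp
    · rw [Pi.add_apply, Pi.single_eq_of_ne hj, add_zero]
  by_cases h : InC ρ (bits2 y)
  · rw [if_pos h, if_pos (h1.2 h)]
    apply prod_congr rfl
    intro j hj
    have hji : j ≠ i := by
      rintro rfl
      exact his hj
    rw [Pi.add_apply, Pi.single_eq_of_ne hji, add_zero]
  · rw [if_neg h, if_neg (fun h' => h (h1.1 h'))]

/-- functions of low degree are orthogonal to the sign -/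
theorem US_top (ρ : Restr (Fin n)) {E : ℕ} (hE : E < fr ρ) {f : (Fin n → ZMod 2) → K}
    (hf : f ∈ US K ρ E) : ∑ y, sg K ρ y * f y = 0 := by
  classical
  unfold US at hf
  induction hf using Submodule.span_induction with
  | mem f hf =>
    obtain ⟨⟨s, h1, h2⟩, rfl⟩ := hf
    obtain ⟨i, hi, his⟩ : ∃ i ∈ freeS ρ, i ∉ s := by
      by_contra hcon
      push Not at hcon
      have := card_le_card (fun i hi => hcon i hi : freeS ρ ⊆ s)
      rw [freeS_card] at this
      omega
    refine sum_involution (fun y _ => y + Pi.single i 1) ?_ ?_ ?_ ?_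
    · intro y _
      show sg K ρ y * chi K ρ s y + sg K ρ (y + Pi.single i 1) * chi K ρ s (y + Pi.single i 1) = 0
      rw [sg_flip ρ hi, chi_flip ρ hi his]
      ring
    · intro y _ _ h
      have h3 := congrFun h i
      rw [Pi.add_apply, Pi.single_eq_same] at h3
      exact absurd h3 (by
        rcases zmod2_cases (y i) with h | h <;> rw [h] <;> decide)
    · intro y _
      exact mem_univ _
    · intro y _
      show y + Pi.single i 1 + Pi.single i 1 = y
      funext j
      by_cases hj : j = i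
      · rw [hj, Pi.add_apply, Pi.add_apply, Pi.single_eq_same]
        rcases zmod2_cases (y i) with h | h <;> rw [h] <;> decide
      · rw [Pi.add_apply, Pi.add_apply, Pi.single_eq_of_ne hj, add_zero, add_zero]
  | zero =>
    apply sum_eq_zero
    intro y _
    rw [Pi.zero_apply, mul_zero]
  | add f g _ _ hf hg =>
    have : ∀ y, sg K ρ y * (f + g) y = sg K ρ y * f y + sg K ρ y * g y := fun y => by
      rw [Pi.add_apply, mul_add]
    rw [sum_congr rfl fun y _ => this y, sum_add_distrib, hf, hg, add_zero]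
  | smul c f _ hf =>
    have : ∀ y, sg K ρ y * (c • f) y = c * (sg K ρ y * f y) := fun y => by
      rw [Pi.smul_apply, smul_eq_mul]
      ring
    rw [sum_congr rfl fun y _ => this y, ← mul_sum, hf, mul_zero]

end top

section main
variable {p n : ℕ} [NeZero p]

/-- the point `u + j b` -/
def pt (u : Fin n → ZMod p) (j : ℕ) (z : Fin n → Bool) : Fin n → ZMod p :=
  fun i => if z i = true then u i + j else u i

omit [NeZero p] in
theorem bool_circ {w : ℕ} (C : Circuit (ZMod p) w n) (hw : 1 ≤ w) (u : Fin n → ZMod p) (j : ℕ) :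
    ∃ (D : Pool.Agent.Y603.MS.Circuit w n) (e : C.Node → D.Node), D.leak = ∅ ∧
      Nat.card D.Node = 2 * Nat.card C.Node ∧
      (∀ d : ℕ, (∀ v, C.depth v ≤ d) → ∀ v, D.depth v ≤ d + 1) ∧
      ∀ v z, D.val (e v) z = C.val v (pt u j z) := by
  obtain ⟨D, e, h1, h2, h3, h4⟩ := exists_bool C hw (fun i : Fin n => {i})
    (fun i i' h => disjoint_singleton.2 h) u (fun i => u i + j)
  refine ⟨D, e, h1, h2, h3, fun v z => ?_⟩
  rw [h4]
  congr 1
  funext i
  unfold mix pt
  have h5 : (∃ i', i ∈ ({i'} : Finset (Fin n)) ∧ z i' = true) ↔ z i = true := by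
    constructor
    · rintro ⟨i', h, h'⟩
      rw [mem_singleton] at h
      rwa [h]
    · intro h
      exact ⟨i, mem_singleton_self _, h⟩
  by_cases h : z i = true
  · rw [if_pos h, if_pos (h5.2 h)]
  · rw [if_neg h, if_neg (fun h' => h (h5.1 h'))]

/-- the fixed ones of a restriction -/
def base (p : ℕ) (ρ : Restr (Fin n)) (i : Fin n) : ZMod p := if ρ i = some true then 1 else 0

/-- the shift by `j` times the fixed ones -/
def sh (ρ : Restr (Fin n)) (j : ℕ) (x : Fin n → ZMod p) : Fin n → ZMod p :=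
  fun i => x i - j * base p ρ i

/-- the free ones of a point -/
def zz (p : ℕ) (ρ : Restr (Fin n)) (y : Fin n → ZMod 2) (i : Fin n) : ZMod p :=
  if ρ i = none ∧ y i = 1 then 1 else 0

/-- the corner of the subcube -/
def y0 (ρ : Restr (Fin n)) (i : Fin n) : ZMod 2 := if ρ i = some true then 1 else 0

omit [NeZero p] in
theorem pt_sh (ρ : Restr (Fin n)) (j : ℕ) (x : Fin n → ZMod p) (y : Fin n → ZMod 2)
    (hy : InC ρ (bits2 y)) : pt (sh ρ j x) j (bits2 y) = x + j • zz p ρ y := by
  funext i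
  rw [Pi.add_apply, Pi.smul_apply]
  unfold pt sh base zz
  cases hρ : ρ i with
  | none =>
    by_cases h : y i = 1
    · have h1 : bits2 y i = true := decide_eq_true h
      rw [if_pos h1, if_neg (by simp), if_pos ⟨rfl, h⟩, nsmul_eq_mul]
      ring
    · have h1 : bits2 y i = false := decide_eq_false h
      rw [h1, if_neg (by simp), if_neg (by simp), if_neg (by tauto), smul_zero]
      ring
  | some b =>
    have h1 := hy i b hρ
    have h2 : ¬ (some b = none ∧ y i = 1) := by simp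
    rw [h1, if_neg h2, smul_zero, add_zero]
    cases b with
    | true =>
      rw [if_pos rfl, if_pos rfl]
      ring
    | false =>
      rw [if_neg (by simp), if_neg (by simp)]
      ring

theorem y0_inC (ρ : Restr (Fin n)) : InC ρ (bits2 (y0 ρ)) := by
  intro i b hb
  unfold bits2 y0
  rw [hb]
  cases b
  · rw [if_neg (by simp)]
    decide
  · rw [if_pos rfl]
    decide

omit [NeZero p] in
theorem eq_y0 (hp : 2 ≤ p) {ρ : Restr (Fin n)} {y : Fin n → ZMod 2} (hy : InC ρ (bits2 y))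
    (hz : zz p ρ y = 0) : y = y0 ρ := by
  have : Fact (1 < p) := ⟨by omega⟩
  funext i
  unfold y0
  cases hρ : ρ i with
  | none =>
    rw [if_neg (by simp)]
    have h1 := congrFun hz i
    unfold zz at h1
    by_cases h : y i = 1
    · rw [if_pos ⟨hρ, h⟩] at h1
      exact absurd h1 one_ne_zero
    · exact (zmod2_cases (y i)).resolve_right h
  | some b =>
    have h1 := hy i b hρ
    unfold bits2 at h1
    cases b with
    | true =>
      rw [if_pos rfl]
      exact of_decide_eq_true h1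
    | false =>
      rw [if_neg (by simp)]
      exact (zmod2_cases (y i)).resolve_right (of_decide_eq_false h1)

omit [NeZero p] in
theorem zz_y0 (ρ : Restr (Fin n)) : zz p ρ (y0 ρ) = 0 := by
  funext i
  unfold zz y0
  rw [if_neg]
  · rfl
  · rintro ⟨h1, h2⟩
    rw [h1, if_neg (by simp)] at h2
    exact absurd h2 (by decide)

theorem sg_y0 (K : Type) [Field K] (ρ : Restr (Fin n)) : sg K ρ (y0 ρ) = 1 := by
  unfold sg
  apply prod_eq_one
  intro i hi
  have hρ : ρ i = none := (mem_filter.1 hi).2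
  rw [if_neg]
  unfold y0
  rw [hρ, if_neg (by simp)]
  decide

theorem chi_empty (K : Type) [Field K] (ρ : Restr (Fin n)) (y : Fin n → ZMod 2) :
    chi K ρ ∅ y ≠ 0 ↔ InC ρ (bits2 y) := by
  unfold chi
  rw [prod_empty]
  by_cases h : InC ρ (bits2 y)
  · rw [if_pos h]
    exact ⟨fun _ => h, fun _ => one_ne_zero⟩
  · rw [if_neg h]
    exact ⟨fun h' => absurd rfl h', fun h' => absurd h' h⟩

/-- `(1 / 2) ^ fr` on the average -/
theorem Ex_half (q : ℝ) : Ex (wq q) (fun ρ : Restr (Fin n) => (1 / 2 : ℝ) ^ fr ρ) =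
    (1 - q / 2) ^ n := by
  unfold Ex
  have h1 : ∀ ρ : Restr (Fin n), (∏ i, wq q (ρ i)) * (1 / 2 : ℝ) ^ fr ρ =
      ∏ i, (wq q (ρ i) * (if ρ i = none then (1 : ℝ) / 2 else 1)) := by
    intro ρ
    rw [prod_mul_distrib]
    congr 1
    unfold fr
    rw [← prod_const, prod_filter]
  rw [sum_congr rfl fun ρ _ => h1 ρ,
    sum_prod_restr (fun _ o => wq q o * (if o = none then (1 : ℝ) / 2 else 1))]
  have h4 : ∑ o : Option Bool, wq q o * (if o = none then (1 : ℝ) / 2 else 1) = 1 - q / 2 := by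
    rw [Fintype.sum_option, Fintype.sum_bool]
    simp [wq]
    ring
  rw [prod_congr rfl fun i _ => h4, prod_const, card_univ, Fintype.card_fin]

variable {K : Type} [Field K]

/-- the basic inequality -/
theorem poly_count (hp : 2 ≤ p) {w ℓ d t T q k : ℕ} (hw : 1 ≤ w) (ht : 1 ≤ t)
    (C : Fin T → Circuit (ZMod p) w n) (o : ∀ i, (C i).Node)
    (hs : ∀ i, Nat.card (C i).Node ≤ 2 ^ ℓ) (hd : ∀ i v, (C i).depth v ≤ d)
    (P : MvPolynomial (Fin T) K) (hP : P.totalDegree ≤ q) (A : Finset (Fin n → ZMod p))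
    (hA : ∀ x, x ∈ A ↔
      MvPolynomial.eval (fun i => if (C i).val (o i) x = true then (1 : K) else 0) P ≠ 0)
    (hfree : ∀ x y : Fin n → ZMod p, (∀ i, y i = 0 ∨ y i = 1) →
      (∀ j : ℕ, j < k → x + j • y ∈ A) → y = 0) :
    (A.card : ℝ) * (1 - 2 ^ (k * (q * ((d + 1) * t + (ℓ + 1)))) *
      (1 - 1 / (((2 ^ (d + 10) * (w * (ℓ + 1))) ^ (d + 1) : ℕ) : ℝ) / 2) ^ n) ≤
      k * (T * (p ^ n * (1 / 2) ^ (2 * t + (d + 1) + 1))) := by
  classical
  -- the circuits
  have hbp : ∀ (i : Fin T) (u : Fin n → ZMod p) (j : ℕ), ∃ Q : Restr (Fin n) → Prop,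
      (∀ σ, Q σ → HasDT (ℓ + 1) (rs (fun z => (C i).val (o i) (pt u j z)) σ)) ∧
      Ex (wq (1 / (((2 ^ (d + 10) * (w * (ℓ + 1))) ^ (d + 1) : ℕ) : ℝ))) (fun ρ : Restr (Fin n) =>
        if ¬ Dt Q ((d + 1) * t) ρ then (1 : ℝ) else 0) ≤ (1 / 2) ^ (2 * t + (d + 1) + 1) := by
    intro i u j
    obtain ⟨D, e, h1, h2, h3, h4⟩ := bool_circ (C i) hw u j
    obtain ⟨Q, hQ, hQ'⟩ := bad_prob (ℓ := ℓ + 1) (d := d + 1) D h1 (by omega) hw ht (by
      rw [h2, pow_succ, mul_comm]
      exact Nat.mul_le_mul_right 2 (hs i)) (h3 d (hd i)) (e (o i))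
    refine ⟨Q, ?_, ?_⟩
    · have e1 : D.val (e (o i)) = fun z => (C i).val (o i) (pt u j z) := funext fun z => h4 _ z
      rwa [e1] at hQ
    · have := hQ'
      rw [show d + 1 + 9 = d + 10 by omega] at this
      exact this
  choose Q hQ1 hQ2 using hbp
  obtain ⟨pr, hpr⟩ : ∃ pr : ℝ, pr = 1 / (((2 ^ (d + 10) * (w * (ℓ + 1))) ^ (d + 1) : ℕ) : ℝ) :=
    ⟨_, rfl⟩
  rw [← hpr] at hQ2 ⊢
  have hN1 : (1 : ℝ) ≤ (((2 ^ (d + 10) * (w * (ℓ + 1))) ^ (d + 1) : ℕ) : ℝ) := by
    have : 0 < w * (ℓ + 1) := by positivity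
    exact_mod_cast Nat.one_le_iff_ne_zero.2 (by positivity)
  have hpr0 : 0 ≤ pr := by rw [hpr]; positivity
  have hpr1 : pr ≤ 1 := by
    rw [hpr, div_le_one (by linarith)]
    exact hN1
  set D' := (d + 1) * t + (ℓ + 1) with hD'
  set m := k * (q * D') with hm
  -- the key property
  have key : ∀ ρ : Restr (Fin n), m < fr ρ → ∀ x ∈ A, ∃ j ∈ range k, ∃ i : Fin T,
      ¬ Dt (Q i (sh ρ j x) j) ((d + 1) * t) ρ := by
    intro ρ hρ x hx
    by_contra hcon
    push Not at hcon
    let h : ℕ → (Fin n → ZMod 2) → K := fun j => chi K ρ ∅ * fun y =>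
      pv P (fun i z => (C i).val (o i) (pt (sh ρ j x) j z)) (bits2 y)
    have hh : ∀ j ∈ range k, h j ∈ US K ρ (q * D') := by
      intro j hj
      refine US_poly ρ P hP _ fun i => ?_
      have h1 := US_dt ρ (hQ1 i (sh ρ j x) j) (hcon j hj i) 0 (chi K ρ ∅)
        (chi_mem ρ (empty_subset _) (by simp)) (fun y hy => (chi_empty K ρ y).1 hy)
      rwa [zero_add] at h1
    have hprod : ∀ r, r ≤ k → (chi K ρ ∅ * ∏ j ∈ range r, h j) ∈ US K ρ (r * (q * D')) := by
      intro r
      induction r with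
      | zero =>
        intro _
        rw [range_zero, prod_empty, mul_one, zero_mul]
        exact chi_mem ρ (empty_subset _) (by simp)
      | succ r ih =>
        intro hr
        have h1 := US_mulf ρ (ih (by omega)) (hh r (mem_range.2 (by omega)))
        rw [mul_assoc, ← prod_range_succ] at h1
        have e : (r + 1) * (q * D') = r * (q * D') + q * D' := by ring
        rw [e]
        exact h1
    have htop := US_top ρ (E := k * (q * D')) hρ (hprod k le_rfl)
    have hne : ∀ y, (chi K ρ ∅ * ∏ j ∈ range k, h j) y ≠ 0 ↔ InC ρ (bits2 y) ∧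
        ∀ j < k, x + j • zz p ρ y ∈ A := by
      intro y
      rw [Pi.mul_apply, Finset.prod_apply, mul_ne_zero_iff, chi_empty, prod_ne_zero_iff]
      refine and_congr_right fun hy => ?_
      apply forall_congr'
      intro j
      rw [mem_range]
      apply imp_congr_right
      intro _
      show (chi K ρ ∅ * fun y => pv P (fun i z => (C i).val (o i) (pt (sh ρ j x) j z)) (bits2 y)) y
        ≠ 0 ↔ _
      rw [Pi.mul_apply, mul_ne_zero_iff, chi_empty, hA, ← pt_sh ρ j x y hy]
      exact ⟨fun h => h.2, fun h => ⟨hy, h⟩⟩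
    rw [sum_eq_single (y0 ρ)] at htop
    · rw [sg_y0, one_mul] at htop
      refine absurd htop ((hne (y0 ρ)).2 ⟨y0_inC ρ, fun j _ => ?_⟩)
      rw [zz_y0, smul_zero, add_zero]
      exact hx
    · intro y _ hy
      have : (chi K ρ ∅ * ∏ j ∈ range k, h j) y = 0 := by
        by_contra hcon'
        obtain ⟨h1, h2⟩ := (hne y).1 hcon'
        refine hy (eq_y0 hp h1 (hfree x (zz p ρ y) (fun i => ?_) h2))
        unfold zz
        split_ifs
        · exact Or.inr rfl
        · exact Or.inl rfl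
      rw [this, mul_zero]
    · intro h
      exact absurd (mem_univ _) h
  -- counting
  have hcount : ∀ ρ : Restr (Fin n), (A.card : ℝ) * (1 - 2 ^ m * (1 / 2) ^ fr ρ) ≤
      ∑ j ∈ range k, ∑ i : Fin T, ∑ u : Fin n → ZMod p,
        (if ¬ Dt (Q i u j) ((d + 1) * t) ρ then (1 : ℝ) else 0) := by
    intro ρ
    have hA0 : (0 : ℝ) ≤ A.card := Nat.cast_nonneg _
    by_cases hρ : m < fr ρ
    · have h1 : A ⊆ (range k).biUnion fun j => univ.biUnion fun i : Fin T =>
          univ.filter fun x => ¬ Dt (Q i (sh ρ j x) j) ((d + 1) * t) ρ := by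
        intro x hx
        obtain ⟨j, hj, i, hi⟩ := key ρ hρ x hx
        exact mem_biUnion.2 ⟨j, hj, mem_biUnion.2 ⟨i, mem_univ _, mem_filter.2 ⟨mem_univ _, hi⟩⟩⟩
      have h2 : A.card ≤ ∑ j ∈ range k, ∑ i : Fin T,
          (univ.filter fun x => ¬ Dt (Q i (sh ρ j x) j) ((d + 1) * t) ρ).card :=
        (card_le_card h1).trans (card_biUnion_le.trans (sum_le_sum fun j _ => card_biUnion_le))
      have h3 : ∀ j (i : Fin T), (univ.filter fun x => ¬ Dt (Q i (sh ρ j x) j) ((d + 1) * t) ρ).card =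
          (univ.filter fun u : Fin n → ZMod p => ¬ Dt (Q i u j) ((d + 1) * t) ρ).card := by
        intro j i
        refine card_bij (fun x _ => sh ρ j x) ?_ ?_ ?_
        · intro x hx
          exact mem_filter.2 ⟨mem_univ _, (mem_filter.1 hx).2⟩
        · intro x _ x' _ hxx
          funext i'
          have := congrFun hxx i'
          unfold sh at this
          exact sub_left_injective this
        · intro u hu
          refine ⟨fun i => u i + j * base p ρ i, ?_, ?_⟩
          · have e1 : sh ρ j (fun i => u i + (j : ZMod p) * base p ρ i) = u := by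
              funext i'
              unfold sh
              ring
            rw [mem_filter, e1]
            exact ⟨mem_univ _, (mem_filter.1 hu).2⟩
          · funext i'
            show u i' + (j : ZMod p) * base p ρ i' - (j : ZMod p) * base p ρ i' = u i'
            ring
      have h4 : (A.card : ℝ) ≤ ∑ j ∈ range k, ∑ i : Fin T, ∑ u : Fin n → ZMod p,
          (if ¬ Dt (Q i u j) ((d + 1) * t) ρ then (1 : ℝ) else 0) := by
        refine le_trans (Nat.cast_le.2 h2) (le_of_eq ?_)
        push_cast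
        apply sum_congr rfl
        intro j _
        apply sum_congr rfl
        intro i _
        rw [h3, sum_boole]
      refine le_trans ?_ h4
      have : (0 : ℝ) ≤ 2 ^ m * (1 / 2) ^ fr ρ := by positivity
      nlinarith
    · push Not at hρ
      have h1 : (1 : ℝ) ≤ 2 ^ m * (1 / 2) ^ fr ρ := by
        calc (1 : ℝ) = 2 ^ fr ρ * (1 / 2) ^ fr ρ := by rw [← mul_pow]; norm_num
          _ ≤ _ := mul_le_mul_of_nonneg_right (pow_le_pow_right₀ (by norm_num) hρ) (by positivity)
      have h2 : (A.card : ℝ) * (1 - 2 ^ m * (1 / 2) ^ fr ρ) ≤ 0 := by nlinarith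
      refine h2.trans (sum_nonneg fun j _ => sum_nonneg fun i _ => sum_nonneg fun u _ => ?_)
      split_ifs <;> norm_num
  -- the average
  have hEx := Ex_mono (wq_nonneg hpr0 hpr1) hcount
  have e1 : Ex (wq pr) (fun ρ : Restr (Fin n) => (A.card : ℝ) * (1 - 2 ^ m * (1 / 2) ^ fr ρ)) =
      A.card * (1 - 2 ^ m * (1 - pr / 2) ^ n) := by
    rw [Ex_smul]
    congr 1
    have h1 : (fun ρ : Restr (Fin n) => (1 - 2 ^ m * (1 / 2) ^ fr ρ : ℝ)) =
        fun ρ => 1 + (-(2 ^ m)) * (1 / 2) ^ fr ρ := by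
      funext ρ
      ring
    rw [h1, Ex_add, Ex_const (wq_sum pr), Ex_smul, Ex_half]
    ring
  rw [e1] at hEx
  refine hEx.trans ?_
  rw [Ex_sum]
  calc ∑ j ∈ range k, Ex (wq pr) (fun ρ : Restr (Fin n) => ∑ i : Fin T, ∑ u : Fin n → ZMod p,
        (if ¬ Dt (Q i u j) ((d + 1) * t) ρ then (1 : ℝ) else 0))
      ≤ ∑ _j ∈ range k, (T * (p ^ n * (1 / 2) ^ (2 * t + (d + 1) + 1)) : ℝ) := by
        refine sum_le_sum fun j _ => ?_
        rw [Ex_sum]
        calc ∑ i : Fin T, Ex (wq pr) (fun ρ : Restr (Fin n) => ∑ u : Fin n → ZMod p,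
              (if ¬ Dt (Q i u j) ((d + 1) * t) ρ then (1 : ℝ) else 0))
            ≤ ∑ _i : Fin T, (p ^ n * (1 / 2) ^ (2 * t + (d + 1) + 1) : ℝ) := by
              refine sum_le_sum fun i _ => ?_
              rw [Ex_sum]
              refine (sum_le_sum fun u _ => hQ2 i u j).trans (le_of_eq ?_)
              rw [sum_const, card_univ, Fintype.card_fun, ZMod.card, Fintype.card_fin, nsmul_eq_mul]
              push_cast
              rfl
          _ = _ := by rw [sum_const, card_univ, Fintype.card_fin, nsmul_eq_mul]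
    _ = _ := by rw [sum_const, card_range, nsmul_eq_mul]

/-- **Progression-free sets decided by polynomials in circuits.** -/
theorem poly_bound (hp : 2 ≤ p) {w ℓ d T q k : ℕ} (hw : 1 ≤ w) (hk : 1 ≤ k) (hq : 1 ≤ q)
    (hT : 1 ≤ T) (F : Fin T → Finset (Fin n → ZMod p)) (hF : ∀ i, Decided w ℓ d (F i))
    (P : MvPolynomial (Fin T) K) (hP : P.totalDegree ≤ q) (A : Finset (Fin n → ZMod p))
    (hA : ∀ x, x ∈ A ↔ MvPolynomial.eval (fun i => if x ∈ F i then (1 : K) else 0) P ≠ 0)
    (hfree : ∀ x y : Fin n → ZMod p, (∀ i, y i = 0 ∨ y i = 1) →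
      (∀ j : ℕ, j < k → x + j • y ∈ A) → y = 0) :
    (A.card : ℝ) ≤ k * T * (p ^ n * (2 : ℝ) ^ (2 * ℓ + 6 - n / (k * q * loss w ℓ d) : ℝ)) := by
  classical
  choose C o hs hd hC using hF
  have hA' : ∀ x, x ∈ A ↔
      MvPolynomial.eval (fun i => if (C i).val (o i) x = true then (1 : K) else 0) P ≠ 0 := by
    intro x
    rw [hA]
    have : (fun i => if x ∈ F i then (1 : K) else 0) =
        fun i => if (C i).val (o i) x = true then (1 : K) else 0 := by
      funext i
      exact if_congr (hC i x) rfl rfl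
    rw [this]
  obtain ⟨N, hN⟩ : ∃ N : ℕ, N = (2 ^ (d + 10) * (w * (ℓ + 1))) ^ (d + 1) := ⟨_, rfl⟩
  have hN1 : 1 ≤ N := by
    rw [hN]
    have : 0 < w * (ℓ + 1) := by positivity
    exact Nat.one_le_iff_ne_zero.2 (by positivity)
  have hloss : (loss w ℓ d : ℝ) = (d + 1) * N := by
    unfold loss
    rw [← hN]
    push_cast
    rfl
  have hNR : (1 : ℝ) ≤ N := by exact_mod_cast hN1
  have hN0 : (0 : ℝ) < N := by linarith
  have hkR : (1 : ℝ) ≤ k := by exact_mod_cast hk
  have hqR : (1 : ℝ) ≤ q := by exact_mod_cast hq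
  have hTR : (1 : ℝ) ≤ T := by exact_mod_cast hT
  have hdR : (0 : ℝ) ≤ d := Nat.cast_nonneg _
  set R : ℝ := k * q * (d + 1) with hR
  have hR1 : 1 ≤ R := by
    have h1 : (1 : ℝ) ≤ k * q := by nlinarith
    rw [hR]
    nlinarith
  have hpR : (1 : ℝ) ≤ p := by exact_mod_cast (by omega : 1 ≤ p)
  set X : ℝ := ((n : ℝ) / (2 * N) - 1) / R with hX
  have e1 : (n : ℝ) / (k * q * loss w ℓ d) = 2 * X + 2 / R := by
    rw [hloss, hX, hR]
    field_simp
    ring
  have h2R : 2 / R ≤ 2 := by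
    rw [div_le_iff₀ (by linarith)]
    linarith
  rw [e1]
  by_cases hX1 : ⌊X⌋₊ ≤ ℓ + 1
  · have h1 : X < ℓ + 2 := by
      have h2 := Nat.lt_floor_add_one X
      have h3 : ((⌊X⌋₊ : ℕ) : ℝ) ≤ ((ℓ + 1 : ℕ) : ℝ) := by exact_mod_cast hX1
      push_cast at h3
      linarith
    have h2 : (1 : ℝ) ≤ (2 : ℝ) ^ (2 * ℓ + 6 - (2 * X + 2 / R) : ℝ) :=
      Real.one_le_rpow (by norm_num) (by linarith)
    have h3 : (A.card : ℝ) ≤ p ^ n := by
      have h4 : A.card ≤ p ^ n := by
        refine (card_le_univ _).trans (le_of_eq ?_)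
        rw [Fintype.card_fun, ZMod.card, Fintype.card_fin]
      exact_mod_cast h4
    have hpn : (0 : ℝ) < p ^ n := by positivity
    have h5 : (1 : ℝ) ≤ k * T := by nlinarith
    calc (A.card : ℝ) ≤ p ^ n := h3
      _ = 1 * (p ^ n * 1) := by ring
      _ ≤ _ := by gcongr
  · push Not at hX1
    obtain ⟨t, ht⟩ : ∃ t, ⌊X⌋₊ = t + (ℓ + 1) := ⟨⌊X⌋₊ - (ℓ + 1), by omega⟩
    have ht1 : 1 ≤ t := by omega
    have hX0 : 0 ≤ X := by
      by_contra hcon
      push Not at hcon
      rw [Nat.floor_of_nonpos hcon.le] at hX1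
      omega
    have htX : (t : ℝ) + (ℓ + 1) ≤ X := by
      have := Nat.floor_le hX0
      rw [ht] at this
      push_cast at this
      exact this
    have htX' : X < t + (ℓ + 1) + 1 := by
      have := Nat.lt_floor_add_one X
      rw [ht] at this
      push_cast at this
      exact this
    have hmain := poly_count hp hw ht1 C o hs hd P hP A hA' hfree
    rw [← hN] at hmain
    obtain ⟨m, hm⟩ : ∃ m, m = k * (q * ((d + 1) * t + (ℓ + 1))) := ⟨_, rfl⟩
    rw [← hm] at hmain
    have hm1 : (m : ℝ) + 1 ≤ n / (2 * N) := by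
      have h1 : (m : ℝ) ≤ R * (t + (ℓ + 1)) := by
        rw [hm, hR]
        push_cast
        have h2 : ((d : ℝ) + 1) * t + (ℓ + 1) ≤ (d + 1) * (t + (ℓ + 1)) := by
          have : (0 : ℝ) ≤ d * (ℓ + 1) := by positivity
          linarith
        calc (k : ℝ) * (q * ((d + 1) * t + (ℓ + 1))) ≤ k * (q * ((d + 1) * (t + (ℓ + 1)))) := by
              gcongr
          _ = _ := by ring
      have h2 : R * (t + (ℓ + 1)) ≤ R * X := mul_le_mul_of_nonneg_left htX (by linarith)
      have h3 : R * X = n / (2 * N) - 1 := by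
        rw [hX]
        field_simp
      linarith
    have hsmall : (2 : ℝ) ^ m * (1 - 1 / (N : ℝ) / 2) ^ n ≤ 1 / 2 := by
      have h1 : (1 : ℝ) - 1 / N / 2 ≤ Real.exp (-(1 / N / 2)) := by
        have := Real.add_one_le_exp (-(1 / (N : ℝ) / 2))
        linarith
      have h0 : 0 ≤ (1 : ℝ) - 1 / N / 2 := by
        have : 1 / (N : ℝ) ≤ 1 := by rw [div_le_one hN0]; exact hNR
        linarith
      have h2 : (1 - 1 / (N : ℝ) / 2) ^ n ≤ Real.exp (-((m : ℝ) + 1)) := by
        calc (1 - 1 / (N : ℝ) / 2) ^ n ≤ Real.exp (-(1 / N / 2)) ^ n := pow_le_pow_left₀ h0 h1 n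
          _ = Real.exp (-(n / (2 * N))) := by
              rw [← Real.exp_nat_mul]
              congr 1
              field_simp
          _ ≤ _ := Real.exp_le_exp.2 (by linarith)
      have h9 : (2 : ℝ) ≤ Real.exp 1 := by
        have := Real.add_one_le_exp (1 : ℝ)
        linarith
      have h7 : Real.exp (-((m : ℝ) + 1)) ≤ (1 / 2) ^ (m + 1) := by
        have h8 : Real.exp (-(1 : ℝ)) ≤ 1 / 2 := by
          rw [Real.exp_neg, ← one_div]
          exact one_div_le_one_div_of_le (by norm_num) h9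
        calc Real.exp (-((m : ℝ) + 1)) = Real.exp (-1) ^ (m + 1) := by
              rw [← Real.exp_nat_mul]; congr 1; push_cast; ring
          _ ≤ _ := pow_le_pow_left₀ (Real.exp_pos _).le h8 _
      calc (2 : ℝ) ^ m * (1 - 1 / (N : ℝ) / 2) ^ n ≤ 2 ^ m * (1 / 2) ^ (m + 1) :=
            mul_le_mul_of_nonneg_left (h2.trans h7) (by positivity)
        _ = 1 / 2 := by rw [pow_succ, ← mul_assoc, ← mul_pow]; norm_num
    have hA0 : (0 : ℝ) ≤ A.card := Nat.cast_nonneg _
    have h1 : (A.card : ℝ) * (1 / 2) ≤ k * (T * (p ^ n * (1 / 2) ^ (2 * t + (d + 1) + 1))) := by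
      refine le_trans ?_ hmain
      exact mul_le_mul_of_nonneg_left (by linarith) hA0
    have h2 : ((1 : ℝ) / 2) ^ (2 * t + (d + 1) + 1) ≤ 1 / 2 * (2 : ℝ) ^ (-(2 * (t : ℝ))) := by
      have h3 : (2 : ℝ) ^ (-(2 * (t : ℝ))) = (1 / 2) ^ (2 * t) := by
        rw [Real.rpow_neg (by norm_num)]
        have : 2 * (t : ℝ) = ((2 * t : ℕ) : ℝ) := by push_cast; ring
        rw [this, Real.rpow_natCast, one_div, inv_pow]
      rw [h3]
      calc ((1 : ℝ) / 2) ^ (2 * t + (d + 1) + 1) = (1 / 2) ^ (d + 2) * (1 / 2) ^ (2 * t) := by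
            rw [← pow_add]
            congr 1
            omega
        _ ≤ 1 / 2 * (1 / 2) ^ (2 * t) := by
            refine mul_le_mul_of_nonneg_right ?_ (by positivity)
            calc ((1 : ℝ) / 2) ^ (d + 2) ≤ (1 / 2) ^ 1 :=
                  pow_le_pow_of_le_one (by norm_num) (by norm_num) (by omega)
              _ = 1 / 2 := pow_one _
    have h3 : (2 : ℝ) ^ (-(2 * (t : ℝ))) ≤ (2 : ℝ) ^ (2 * ℓ + 6 - (2 * X + 2 / R) : ℝ) :=
      Real.rpow_le_rpow_of_exponent_le (by norm_num) (by linarith)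
    have hpn : (0 : ℝ) < p ^ n := by positivity
    have h4 : (A.card : ℝ) * (1 / 2) ≤
        k * (T * (p ^ n * (1 / 2 * (2 : ℝ) ^ (2 * ℓ + 6 - (2 * X + 2 / R) : ℝ)))) := by
      refine h1.trans ?_
      have := h2.trans (mul_le_mul_of_nonneg_left h3 (by norm_num : (0 : ℝ) ≤ 1 / 2))
      gcongr
    linarith

end main

end Pool.Agent.X222.AP
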