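import Pool.Agent.X222.AP.Tail
import Pool.Agent.H602R3.DHJ.Main

set_option autoImplicit false

/-!
# Progression-free subsets of sets with few sensitive blocks
-/

namespace Pool.Agent.X222.AP

open Finset Function

/-- `A ⊆ (ℤ/p)^n` contains no progression `x, x + y, …, x + (k - 1) y` for which `y ≠ 0` has all its
coordinates in `Λ`. -/
def APFree {p : ℕ} (k : ℕ) (Λ : Set (ZMod p)) {n : ℕ} (A : Finset (Fin n → ZMod p)) : Prop :=
  ∀ x y : Fin n → ZMod p, (∀ i, y i ∈ Λ) → (∀ j : ℕ, j < k → x + j • y ∈ A) → y = 0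

variable {p n : ℕ} [NeZero p] {k m R : ℕ} {Λ : Set (ZMod p)}

omit [NeZero p] in
theorem APFree.mono {A A' : Finset (Fin n → ZMod p)} (h : APFree k Λ A) (hs : A' ⊆ A) :
    APFree k Λ A' := fun x y hy hj => h x y hy fun j hjk => hs (hj j hjk)

/-- the part of a progression-free set in a block -/
theorem fiber (h0 : (0 : ZMod p) ∈ Λ) (hR : ∀ A : Finset (Fin m → ZMod p), APFree k Λ A → A.card ≤ R)
    (S : Finset (Fin n → ZMod p)) (hS : APFree k Λ S) (B : Finset (Fin n)) (hB : B.card = m)
    (u : Fin n → ZMod p) : (S.filter fun x => ∀ i, i ∉ B → x i = u i).card ≤ R := by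
  classical
  set e : B ≃ Fin m := B.equivFinOfCardEq hB with he
  set emb : (Fin m → ZMod p) → Fin n → ZMod p := fun c i => if h : i ∈ B then c (e ⟨i, h⟩) else u i
    with hemb
  set T : Finset (Fin m → ZMod p) := univ.filter fun c => emb c ∈ S with hT
  have hTfree : APFree k Λ T := by
    intro c y' hy' hj
    set y : Fin n → ZMod p := fun i => if h : i ∈ B then y' (e ⟨i, h⟩) else 0 with hy
    have h1 : ∀ j : ℕ, emb c + j • y = emb (c + j • y') := by
      intro j
      funext i
      rw [Pi.add_apply, Pi.smul_apply, hy, hemb]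
      by_cases h : i ∈ B
      · simp only [h, dite_true, Pi.add_apply, Pi.smul_apply]
      · simp only [h, dite_false, smul_zero, add_zero]
    have h2 : y = 0 := by
      apply hS (emb c) y
      · intro i
        rw [hy]
        by_cases h : i ∈ B
        · simp only [h, dite_true]
          exact hy' _
        · simp only [h, dite_false]
          exact h0
      · intro j hjk
        rw [h1]
        exact (mem_filter.1 (hj j hjk)).2
    funext a
    have h3 := congrFun h2 (e.symm a).1
    rw [hy] at h3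
    simp only [(e.symm a).2, dite_true, Subtype.coe_eta, Equiv.apply_symm_apply] at h3
    exact h3
  refine le_trans ?_ (hR T hTfree)
  refine card_le_card_of_injOn (fun x a => x (e.symm a).1) ?_ ?_
  · intro x hx
    obtain ⟨hx1, hx2⟩ := mem_filter.1 hx
    rw [mem_coe, hT, mem_filter]
    refine ⟨mem_univ _, ?_⟩
    have : emb (fun a => x (e.symm a).1) = x := by
      funext i
      rw [hemb]
      by_cases h : i ∈ B
      · simp only [h, dite_true, Equiv.symm_apply_apply]
      · simp only [h, dite_false]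
        exact (hx2 i h).symm
    rw [this]
    exact hx1
  · intro x hx x' hx' hxx
    obtain ⟨_, hx2⟩ := mem_filter.1 hx
    obtain ⟨_, hx2'⟩ := mem_filter.1 hx'
    funext i
    by_cases h : i ∈ B
    · have := congrFun hxx (e ⟨i, h⟩)
      simpa using this
    · rw [hx2 i h, hx2' i h]

/-- the words of `F` all of whose changes in the block `B` are in `F` -/
noncomputable def ins (B : Finset (Fin n)) (F : Finset (Fin n → ZMod p)) : Finset (Fin n → ZMod p) := by
  classical
  exact F.filter fun x => ∀ y, repl B x y ∈ F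

theorem mem_ins {B : Finset (Fin n)} {F : Finset (Fin n → ZMod p)} {x : Fin n → ZMod p} :
    x ∈ ins B F ↔ x ∈ F ∧ ∀ y, repl B x y ∈ F := by
  classical
  unfold ins
  rw [mem_filter]

theorem fibers (h0 : (0 : ZMod p) ∈ Λ) (hR : ∀ A : Finset (Fin m → ZMod p), APFree k Λ A → A.card ≤ R)
    (S F : Finset (Fin n → ZMod p)) (hS : APFree k Λ S) (B : Finset (Fin n)) (hB : B.card = m) :
    (S ∩ ins B F).card * p ^ m ≤ R * F.card := by
  classical
  have hα : Fintype.card (ZMod p) = p := ZMod.card p
  have hp : 0 < p := Nat.pos_of_ne_zero (NeZero.ne p)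
  have hmn : m ≤ n := by
    rw [← hB]
    simpa using card_le_univ B
  set P : Finset ((Fin n → ZMod p) × (Fin n → ZMod p)) :=
    ((S ∩ ins B F) ×ˢ F).filter fun q => ∀ i, i ∉ B → q.1 i = q.2 i with hP
  -- lower bound
  have h1 : (S ∩ ins B F).card * p ^ m ≤ P.card := by
    have h2 : P.card = ∑ x ∈ S ∩ ins B F, (F.filter fun x' => ∀ i, i ∉ B → x i = x' i).card := by
      rw [hP, card_filter, sum_product, sum_congr rfl fun x _ => (card_filter _ _).symm]
    rw [h2, ← smul_eq_mul, ← sum_const]
    refine sum_le_sum fun x hx => ?_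
    obtain ⟨hxS, hxI⟩ := mem_inter.1 hx
    obtain ⟨hxF, hxr⟩ := mem_ins.1 hxI
    have h3 := card_agree (α := ZMod p) (by rw [hα]; exact hp) (univ \ B) (m := n - m)
      (by rw [card_sdiff_of_subset (subset_univ _), hB, card_univ, Fintype.card_fin]) x
    rw [hα] at h3
    have h4 : p ^ m * p ^ (n - m) ≤
        (univ.filter fun y : Fin n → ZMod p => ∀ i ∈ univ \ B, y i = x i).card * p ^ (n - m) := by
      rw [← pow_add, Nat.add_sub_cancel' hmn]
      linarith [h3]
    refine (Nat.le_of_mul_le_mul_right h4 (Nat.pow_pos hp)).trans (card_le_card ?_)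
    intro y hy
    rw [mem_filter] at hy ⊢
    have h5 : ∀ i, i ∉ B → x i = y i := fun i hi => (hy.2 i (by simp [hi])).symm
    refine ⟨?_, h5⟩
    have h6 : repl B x y = y := by
      funext i
      unfold repl
      by_cases hi : i ∈ B
      · rw [if_pos hi]
      · rw [if_neg hi, h5 i hi]
    rw [← h6]
    exact hxr y
  -- upper bound
  have h2 : P.card ≤ R * F.card := by
    have h3 : P.card = ∑ x' ∈ F, ((S ∩ ins B F).filter fun x => ∀ i, i ∉ B → x i = x' i).card := by
      rw [hP, card_filter, sum_product_right, sum_congr rfl fun x _ => (card_filter _ _).symm]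
    rw [h3, mul_comm, ← smul_eq_mul, ← sum_const]
    refine sum_le_sum fun x' _ => ?_
    refine le_trans (card_le_card ?_) (fiber h0 hR S hS B hB x')
    intro x hx
    rw [mem_filter] at hx ⊢
    exact ⟨(mem_inter.1 hx.1).1, hx.2⟩
  exact h1.trans h2

open Classical in
/-- the counting over all blocks -/
theorem assemble (h0 : (0 : ZMod p) ∈ Λ)
    (hR : ∀ A : Finset (Fin m → ZMod p), APFree k Λ A → A.card ≤ R) {J : ℕ}
    (B : Fin J → Finset (Fin n)) (hB : ∀ j, (B j).card = m) (S F : Finset (Fin n → ZMod p))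
    (hS : APFree k Λ S) (s : ℕ) (Bad : Finset (Fin n → ZMod p))
    (hBad : ∀ x ∈ F, s ≤ (univ.filter fun j => ∃ y, repl (B j) x y ∉ F).card → x ∈ Bad) :
    ((S ∩ F) \ Bad).card * (J - s) * p ^ m ≤ J * (R * F.card) := by
  have h1 : ((S ∩ F) \ Bad).card * (J - s) ≤ ∑ j, (S ∩ ins (B j) F).card := by
    have h2 : ∑ j, (((S ∩ F) \ Bad).filter fun x => x ∈ ins (B j) F).card ≤
        ∑ j, (S ∩ ins (B j) F).card := by
      refine sum_le_sum fun j _ => card_le_card ?_
      intro x hx
      rw [mem_filter, mem_sdiff, mem_inter] at hx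
      exact mem_inter.2 ⟨hx.1.1.1, hx.2⟩
    refine le_trans ?_ h2
    rw [sum_congr rfl fun j _ => card_filter _ _, sum_comm, sum_congr rfl fun x _ => (card_filter _ _).symm,
      ← smul_eq_mul, ← sum_const]
    refine sum_le_sum fun x hx => ?_
    rw [mem_sdiff, mem_inter] at hx
    have h3 : (univ.filter fun j => ∃ y, repl (B j) x y ∉ F).card < s := by
      by_contra hcon
      push Not at hcon
      exact hx.2 (hBad x hx.1.2 hcon)
    have h4 : (univ.filter fun j => x ∈ ins (B j) F) =
        univ \ (univ.filter fun j => ∃ y, repl (B j) x y ∉ F) := by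
      ext j
      rw [mem_filter, mem_sdiff, mem_filter, mem_ins]
      constructor
      · rintro ⟨_, _, h⟩
        refine ⟨mem_univ _, ?_⟩
        rintro ⟨_, y, hy⟩
        exact hy (h y)
      · rintro ⟨_, h⟩
        refine ⟨mem_univ _, hx.1.2, fun y => ?_⟩
        by_contra hcon
        exact h ⟨mem_univ _, y, hcon⟩
    rw [h4, card_sdiff_of_subset (subset_univ _), card_univ, Fintype.card_fin]
    omega
  calc ((S ∩ F) \ Bad).card * (J - s) * p ^ m ≤ (∑ j, (S ∩ ins (B j) F).card) * p ^ m :=
        Nat.mul_le_mul_right _ h1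
    _ = ∑ j, (S ∩ ins (B j) F).card * p ^ m := by rw [sum_mul]
    _ ≤ ∑ _j : Fin J, R * F.card := sum_le_sum fun j _ => fibers h0 hR S F hS (B j) (hB j)
    _ = _ := by rw [sum_const, smul_eq_mul, card_univ, Fintype.card_fin]

/-- `⌊n / m⌋` disjoint blocks of `m` letters -/
theorem exists_blocks (n m : ℕ) : ∃ B : Fin (n / m) → Finset (Fin n), (∀ j, (B j).card = m) ∧
    ∀ j j', j ≠ j' → Disjoint (B j) (B j') := by
  classical
  have hlt : ∀ (j : Fin (n / m)) (a : Fin m), (j : ℕ) * m + a < n := by
    intro j a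
    have h1 : (j : ℕ) + 1 ≤ n / m := j.2
    have h2 : ((j : ℕ) + 1) * m ≤ n := (Nat.mul_le_mul_right m h1).trans (Nat.div_mul_le_self n m)
    have h3 := a.2
    nlinarith
  refine ⟨fun j => univ.map ⟨fun a : Fin m => ⟨(j : ℕ) * m + a, hlt j a⟩, ?_⟩, ?_, ?_⟩
  · intro a b hab
    simp only [Fin.mk.injEq, Nat.add_left_cancel_iff] at hab
    exact Fin.ext hab
  · intro j
    rw [card_map, card_univ, Fintype.card_fin]
  · intro j j' hne
    rw [Finset.disjoint_left]
    intro i hi hi'
    obtain ⟨a, _, ha⟩ := mem_map.1 hi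
    obtain ⟨a', _, ha'⟩ := mem_map.1 hi'
    have h1 : (j : ℕ) * m + a = j' * m + a' := by
      have h2 : (j : ℕ) * m + a = (i : ℕ) := congrArg Fin.val ha
      have h3 : (j' : ℕ) * m + a' = (i : ℕ) := congrArg Fin.val ha'
      rw [h2, h3]
    apply hne
    have hm : 0 < m := lt_of_le_of_lt (Nat.zero_le _) a.2
    have h4 : ((j : ℕ) * m + a) / m = j := by
      rw [mul_comm, Nat.mul_add_div hm, Nat.div_eq_of_lt a.2, add_zero]
    have h5 : ((j' : ℕ) * m + a') / m = j' := by
      rw [mul_comm, Nat.mul_add_div hm, Nat.div_eq_of_lt a'.2, add_zero]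
    exact Fin.ext (by rw [← h4, h1, h5])

end Pool.Agent.X222.AP
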