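import Pool.Agent.X222.AP.Circ

set_option autoImplicit false

/-!
# Words with many sensitive blocks are rare
-/

namespace Pool.Agent.X222.AP

open Finset Function

variable {α : Type} [Fintype α] [DecidableEq α] {w n J : ℕ}

/-- `2 K (d t + l + 1)` for the Boolean circuit -/
def thr (w ℓ d t : ℕ) : ℕ := 2 * (2 ^ (d + 10) * (w * (ℓ + 1))) ^ (d + 1) * ((d + 1) * t + (ℓ + 1) + 1)

/-- pairs -/
theorem pairs (C : Circuit α w n) (o : C.Node) (B : Fin J → Finset (Fin n))
    (hB : ∀ j j', j ≠ j' → Disjoint (B j) (B j')) {ℓ d t κ : ℕ} (hw : 1 ≤ w) (ht : 1 ≤ t)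
    (hs : Nat.card C.Node ≤ 2 ^ ℓ) (hd : ∀ v, C.depth v ≤ d) (hκ : thr w ℓ d t ≤ κ)
    (F : Finset (Fin n → α)) (hF : ∀ x, x ∈ F ↔ C.val o x = true)
    (P : Finset ((Fin n → α) × (Fin n → α)))
    (hP : ∀ p ∈ P, p.1 ∈ F ∧ κ ≤ (univ.filter fun j => repl (B j) p.1 p.2 ∉ F).card) :
    P.card * 4 ^ t ≤ Fintype.card α ^ n * Fintype.card α ^ n := by
  classical
  -- double counting of the triples
  have h1 : ∀ z : Fin J → Bool,
      (univ.filter fun p : (Fin n → α) × (Fin n → α) => swp B z p ∈ P).card = P.card := by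
    intro z
    refine card_bij' (fun p _ => swp B z p) (fun p _ => swp B z p) ?_ ?_ ?_ ?_
    · intro p hp
      exact (mem_filter.1 hp).2
    · intro p hp
      rw [mem_filter, swp_swp]
      exact ⟨mem_univ _, hp⟩
    · intro p _
      exact swp_swp z p
    · intro p _
      exact swp_swp z p
  have h2 : ∀ p : (Fin n → α) × (Fin n → α),
      (univ.filter fun z : Fin J → Bool => swp B z p ∈ P).card * 4 ^ t ≤ 2 ^ J := by
    rintro ⟨x, y⟩
    obtain ⟨D, e, hleak, hcard, hdep, hval⟩ := exists_bool C hw B hB x y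
    refine Pool.Agent.Y220.CO.done w J D (ℓ + 1) (d + 1) t κ hleak (by omega) hw ht ?_ (hdep d hd)
      ?_ (e o) _ ?_
    · rw [hcard, pow_succ, mul_comm]
      exact Nat.mul_le_mul_right 2 hs
    · refine le_trans (le_of_eq ?_) hκ
      unfold thr
      rw [show d + 1 + 9 = d + 10 by omega]
    · intro z hz
      have hz' := (mem_filter.1 hz).2
      obtain ⟨h3, h4⟩ := hP _ hz'
      refine le_trans h4 (card_le_card ?_)
      intro j hj
      rw [mem_filter] at hj ⊢
      refine ⟨mem_univ _, ?_⟩
      have h5 : D.val (e o) z = true := by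
        rw [hval]
        exact (hF _).1 h3
      have h6 : ¬ D.val (e o) (update z j (!z j)) = true := by
        rw [hval, mix_update hB, ← hF]
        exact hj.2
      rw [h5]
      exact h6
  have h3 : 2 ^ J * P.card = ∑ p : (Fin n → α) × (Fin n → α),
      (univ.filter fun z : Fin J → Bool => swp B z p ∈ P).card := by
    rw [sum_congr rfl fun p _ => card_filter _ _, sum_comm, ← sum_congr rfl fun z _ => card_filter _ _,
      sum_congr rfl fun z _ => h1 z, sum_const, smul_eq_mul, card_univ, Fintype.card_fun,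
      Fintype.card_bool, Fintype.card_fin]
  have h4 : 2 ^ J * P.card * 4 ^ t ≤ (Fintype.card α ^ n * Fintype.card α ^ n) * 2 ^ J := by
    rw [h3, sum_mul]
    refine (sum_le_sum fun p _ => h2 p).trans (le_of_eq ?_)
    rw [sum_const, smul_eq_mul, card_univ, Fintype.card_prod, Fintype.card_fun, Fintype.card_fin]
  have h5 : 2 ^ J * (P.card * 4 ^ t) ≤ 2 ^ J * (Fintype.card α ^ n * Fintype.card α ^ n) := by
    calc 2 ^ J * (P.card * 4 ^ t) = 2 ^ J * P.card * 4 ^ t := by ring
      _ ≤ _ := h4
      _ = _ := by ring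
  exact Nat.le_of_mul_le_mul_left h5 (by positivity)

/-- the number of words with given letters in a block -/
theorem card_agree (hα : 0 < Fintype.card α) (B : Finset (Fin n)) {m : ℕ} (hm : B.card ≤ m)
    (c : Fin n → α) : Fintype.card α ^ n ≤
      Fintype.card α ^ m * (univ.filter fun y : Fin n → α => ∀ i ∈ B, y i = c i).card := by
  classical
  have h1 : (univ.filter fun y : Fin n → α => ∀ i ∈ B, y i = c i) =
      Fintype.piFinset (fun i => if i ∈ B then {c i} else (univ : Finset α)) := by
    ext y
    rw [mem_filter, Fintype.mem_piFinset]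
    constructor
    · rintro ⟨_, h⟩ i
      by_cases hi : i ∈ B
      · rw [if_pos hi, mem_singleton]
        exact h i hi
      · rw [if_neg hi]
        exact mem_univ _
    · intro h
      refine ⟨mem_univ _, fun i hi => ?_⟩
      have := h i
      rw [if_pos hi, mem_singleton] at this
      exact this
  rw [h1, Fintype.card_piFinset]
  have h2 : ∀ i, ((if i ∈ B then {c i} else (univ : Finset α)) : Finset α).card =
      if i ∈ B then 1 else Fintype.card α := by
    intro i
    split_ifs
    · exact card_singleton _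
    · exact card_univ
  rw [prod_congr rfl fun i _ => h2 i, prod_ite, prod_const_one, one_mul, prod_const]
  have h3 : (univ.filter fun i : Fin n => i ∉ B).card = n - B.card := by
    rw [filter_not, card_sdiff_of_subset (filter_subset _ _), filter_mem_eq_inter, univ_inter, card_univ,
      Fintype.card_fin]
  rw [h3, ← pow_add]
  have h4 : B.card ≤ n := by simpa using card_le_univ B
  exact Nat.pow_le_pow_right hα (by omega)

open Classical in
/-- **Words with many sensitive blocks are rare.** -/
theorem tail (hα : 0 < Fintype.card α) (C : Circuit α w n) (o : C.Node) (B : Fin J → Finset (Fin n))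
    (hB : ∀ j j', j ≠ j' → Disjoint (B j) (B j')) {ℓ d t κ s m : ℕ} (hw : 1 ≤ w) (ht : 1 ≤ t)
    (hs : Nat.card C.Node ≤ 2 ^ ℓ) (hd : ∀ v, C.depth v ≤ d) (hκ : thr w ℓ d t ≤ κ)
    (F : Finset (Fin n → α)) (hF : ∀ x, x ∈ F ↔ C.val o x = true)
    (hBm : ∀ j, (B j).card ≤ m) (hsκ : 2 * Fintype.card α ^ m * κ ≤ s)
    (Bad : Finset (Fin n → α))
    (hBad : ∀ x ∈ Bad, x ∈ F ∧ s ≤ (univ.filter fun j => ∃ y, repl (B j) x y ∉ F).card) :
    Bad.card * 4 ^ t ≤ 2 * Fintype.card α ^ m * Fintype.card α ^ n := by
  set q := Fintype.card α with hq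
  have hqn : 0 < q ^ n := Nat.pow_pos hα
  have hqm : 0 < q ^ m := Nat.pow_pos hα
  set P : Finset ((Fin n → α) × (Fin n → α)) := univ.filter fun p =>
    p.1 ∈ F ∧ κ ≤ (univ.filter fun j => repl (B j) p.1 p.2 ∉ F).card with hPdef
  have hP := pairs C o B hB hw ht hs hd hκ F hF P (fun p hp => by
    have := (mem_filter.1 hp).2
    convert this)
  have hκ1 : 1 ≤ κ := by
    refine le_trans ?_ hκ
    unfold thr
    have : 0 < 2 * (2 ^ (d + 10) * (w * (ℓ + 1))) ^ (d + 1) * ((d + 1) * t + (ℓ + 1) + 1) := by
      positivity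
    exact this
  have hs1 : 1 ≤ s := by
    refine le_trans ?_ hsκ
    have : 0 < 2 * q ^ m * κ := by positivity
    exact this
  have key : ∀ x ∈ Bad, q ^ n ≤ 2 * q ^ m * (univ.filter fun y => (x, y) ∈ P).card := by
    intro x hx
    obtain ⟨hxF, hxs⟩ := hBad x hx
    obtain ⟨T, hTsub, hTcard⟩ := exists_subset_card_eq hxs
    set Y := univ.filter fun y => (x, y) ∈ P with hY
    have h1 : s * q ^ n ≤ q ^ m * ∑ y : Fin n → α, (T.filter fun j => repl (B j) x y ∉ F).card := by
      rw [sum_congr rfl fun y _ => card_filter _ _, sum_comm,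
        ← sum_congr rfl fun j _ => card_filter _ _, mul_sum, ← hTcard, ← smul_eq_mul, ← sum_const]
      refine sum_le_sum fun j hj => ?_
      obtain ⟨c, hc⟩ := (mem_filter.1 (hTsub hj)).2
      refine (card_agree hα (B j) (hBm j) c).trans (Nat.mul_le_mul_left _ (card_le_card ?_))
      intro y hy
      rw [mem_filter] at hy ⊢
      refine ⟨mem_univ _, ?_⟩
      have : repl (B j) x y = repl (B j) x c := by
        funext i
        unfold repl
        by_cases hi : i ∈ B j
        · rw [if_pos hi, if_pos hi, hy.2 i hi]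
        · rw [if_neg hi, if_neg hi]
      rw [this]
      exact hc
    have h2 : ∑ y : Fin n → α, (T.filter fun j => repl (B j) x y ∉ F).card ≤
        s * Y.card + κ * q ^ n := by
      have h3 : ∀ y : Fin n → α, (T.filter fun j => repl (B j) x y ∉ F).card ≤
          (if y ∈ Y then s else 0) + κ := by
        intro y
        by_cases hy : y ∈ Y
        · rw [if_pos hy]
          calc (T.filter fun j => repl (B j) x y ∉ F).card ≤ T.card := card_filter_le _ _
            _ ≤ _ := by omega
        · rw [if_neg hy, zero_add]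
          by_contra hcon
          push Not at hcon
          apply hy
          rw [hY, mem_filter]
          refine ⟨mem_univ _, ?_⟩
          rw [hPdef, mem_filter]
          refine ⟨mem_univ _, hxF, hcon.le.trans (card_le_card ?_)⟩
          intro j hj
          rw [mem_filter] at hj ⊢
          exact ⟨mem_univ _, hj.2⟩
      refine (sum_le_sum fun y _ => h3 y).trans (le_of_eq ?_)
      rw [sum_add_distrib, ← sum_filter, sum_const, sum_const, smul_eq_mul, smul_eq_mul, card_univ,
        Fintype.card_fun, Fintype.card_fin, filter_mem_eq_inter, univ_inter, mul_comm κ, mul_comm s,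
        hq]
    have h3 : s * q ^ n ≤ s * (2 * q ^ m * Y.card) := by
      have h4 := Nat.mul_le_mul_left (2 * 1) (h1.trans (Nat.mul_le_mul_left _ h2))
      have h5 := Nat.mul_le_mul_right (q ^ n) hsκ
      nlinarith
    exact Nat.le_of_mul_le_mul_left h3 hs1
  have h6 : Bad.card * q ^ n ≤ 2 * q ^ m * P.card := by
    calc Bad.card * q ^ n = ∑ _x ∈ Bad, q ^ n := by rw [sum_const, smul_eq_mul]
      _ ≤ ∑ x ∈ Bad, 2 * q ^ m * (univ.filter fun y => (x, y) ∈ P).card := sum_le_sum key
      _ = 2 * q ^ m * ∑ x ∈ Bad, (univ.filter fun y => (x, y) ∈ P).card := by rw [mul_sum]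
      _ ≤ 2 * q ^ m * P.card := by
        refine Nat.mul_le_mul_left _ ?_
        calc ∑ x ∈ Bad, (univ.filter fun y => (x, y) ∈ P).card
            ≤ ∑ x : Fin n → α, (univ.filter fun y => (x, y) ∈ P).card :=
              sum_le_sum_of_subset (subset_univ _)
          _ = P.card := by
            rw [sum_congr rfl fun x _ => card_filter _ _, ← sum_product', univ_product_univ,
              ← card_filter]
            congr 1
            ext p
            simp
  have h7 : Bad.card * 4 ^ t * q ^ n ≤ 2 * q ^ m * q ^ n * q ^ n := by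
    calc Bad.card * 4 ^ t * q ^ n = (Bad.card * q ^ n) * 4 ^ t := by ring
      _ ≤ (2 * q ^ m * P.card) * 4 ^ t := Nat.mul_le_mul_right _ h6
      _ = 2 * q ^ m * (P.card * 4 ^ t) := by ring
      _ ≤ 2 * q ^ m * (q ^ n * q ^ n) := Nat.mul_le_mul_left _ hP
      _ = _ := by ring
  exact Nat.le_of_mul_le_mul_right h7 hqn

end Pool.Agent.X222.AP
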